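import Mathlib

set_option autoImplicit false

namespace Pool.Agent.H270Z

open Complex MeasureTheory Set

theorem norm_Gamma_le_re {z : ℂ} (hz : 0 < z.re) : ‖Complex.Gamma z‖ ≤ Real.Gamma z.re := by
  rw [Complex.Gamma_eq_integral hz, Real.Gamma_eq_integral hz, Complex.GammaIntegral]
  refine (norm_integral_le_integral_norm _).trans (le_of_eq ?_)
  refine setIntegral_congr_fun measurableSet_Ioi fun x hx => ?_
  have hx' : (0 : ℝ) < x := hx
  simp only [norm_mul]
  rw [Complex.norm_cpow_eq_rpow_re_of_pos hx', Complex.norm_real, Real.norm_eq_abs,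
    abs_of_pos (Real.exp_pos _)]
  simp

theorem norm_sin_le_exp (z : ℂ) : ‖Complex.sin z‖ ≤ Real.exp |z.im| := by
  rw [Complex.sin]
  have h1 : ‖Complex.exp (-z * I)‖ ≤ Real.exp |z.im| := by
    rw [Complex.norm_exp]; apply Real.exp_le_exp.2; simp [le_abs_self]
  have h2 : ‖Complex.exp (z * I)‖ ≤ Real.exp |z.im| := by
    rw [Complex.norm_exp]; apply Real.exp_le_exp.2; simp [neg_le_abs]
  have h3 := norm_sub_le (Complex.exp (-z * I)) (Complex.exp (z * I))
  rw [norm_div, norm_mul, Complex.norm_I]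
  simp only [Complex.norm_ofNat]
  linarith

theorem invGamma_bound : ∃ A : ℝ, 0 ≤ A ∧ ∀ σ t : ℝ, 1 ≤ σ → σ ≤ 4 → 1 ≤ t →
    ‖(Complex.Gamma ((σ : ℂ) + (t : ℂ) * I))⁻¹‖ ≤ A * Real.exp (Real.pi * t) := by
  have hc : ContinuousOn Real.Gamma (Icc 1 4) := by
    intro x hx
    refine (Real.differentiableAt_Gamma fun m => ?_).continuousAt.continuousWithinAt
    have : (0 : ℝ) ≤ m := Nat.cast_nonneg m
    have := hx.1
    linarith
  obtain ⟨B, hB⟩ := isCompact_Icc.exists_bound_of_continuousOn hc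
  have hB0 : 0 ≤ B := (norm_nonneg _).trans (hB 1 ⟨le_rfl, by norm_num⟩)
  refine ⟨B, hB0, fun σ t h1 h4 ht => ?_⟩
  set s : ℂ := (σ : ℂ) + (t : ℂ) * I with hs
  have hre : s.re = σ := by simp [hs]
  have him : s.im = t := by simp [hs]
  have hG : Complex.Gamma s ≠ 0 := Complex.Gamma_ne_zero_of_re_pos (by rw [hre]; linarith)
  have hsin : Complex.sin (Real.pi * s) ≠ 0 := by
    intro h
    obtain ⟨k, hk⟩ := Complex.sin_eq_zero_iff.1 h
    have := congrArg Complex.im hk
    simp [him] at this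
    linarith
  have hpi : (Real.pi : ℂ) ≠ 0 := Complex.ofReal_ne_zero.2 Real.pi_ne_zero
  have e : (Complex.Gamma s)⁻¹ = Complex.Gamma (1 - s) * Complex.sin (Real.pi * s) / Real.pi := by
    have := Complex.Gamma_mul_Gamma_one_sub s
    rw [eq_div_iff hsin] at this
    rw [eq_div_iff hpi, inv_mul_eq_div, div_eq_iff hG]
    linear_combination -this
  have hn : ∀ k : ℝ, 1 ≤ ‖(k : ℂ) - s‖ := by
    intro k
    have := Complex.abs_im_le_norm ((k : ℂ) - s)
    simp only [Complex.sub_im, Complex.ofReal_im, him, zero_sub, abs_neg] at this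
    exact le_trans (le_trans ht (le_abs_self t)) this
  have step : ∀ k : ℝ, ‖Complex.Gamma ((k : ℂ) - s)‖ ≤ ‖Complex.Gamma (((k + 1 : ℝ) : ℂ) - s)‖ := by
    intro k
    have hne : (k : ℂ) - s ≠ 0 := by
      intro h; have := hn k; rw [h] at this; norm_num at this
    have : (((k + 1 : ℝ) : ℂ) - s) = ((k : ℂ) - s) + 1 := by push_cast; ring
    rw [this, Complex.Gamma_add_one _ hne, norm_mul]
    exact le_mul_of_one_le_left (norm_nonneg _) (hn k)
  have h5 : ‖Complex.Gamma (1 - s)‖ ≤ B := by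
    have a1 := step 1
    have a2 := step (1 + 1)
    have a3 := step (1 + 1 + 1)
    have a4 := step (1 + 1 + 1 + 1)
    have hre5 : ((((1 + 1 + 1 + 1 + 1 : ℝ)) : ℂ) - s).re = 5 - σ := by
      rw [Complex.sub_re, Complex.ofReal_re, hre]; norm_num
    have a5 := norm_Gamma_le_re (z := (((1 + 1 + 1 + 1 + 1 : ℝ)) : ℂ) - s)
      (by rw [hre5]; linarith)
    rw [hre5] at a5
    have a6 := hB (5 - σ) ⟨by linarith, by linarith⟩
    have a7 := le_abs_self (Real.Gamma (5 - σ))
    rw [Real.norm_eq_abs] at a6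
    rw [Complex.ofReal_one] at a1
    linarith
  have h6 : ‖Complex.sin (Real.pi * s)‖ ≤ Real.exp (Real.pi * t) := by
    refine (norm_sin_le_exp _).trans (le_of_eq ?_)
    congr 1
    have : ((Real.pi : ℂ) * s).im = Real.pi * t := by simp [him]
    rw [this, abs_of_nonneg]
    have := Real.pi_pos
    positivity
  rw [e, norm_div, norm_mul, Complex.norm_real, Real.norm_eq_abs, abs_of_pos Real.pi_pos]
  have h7 : ‖Complex.Gamma (1 - s)‖ * ‖Complex.sin (Real.pi * s)‖ ≤ B * Real.exp (Real.pi * t) :=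
    mul_le_mul h5 h6 (norm_nonneg _) hB0
  have h8 : (1 : ℝ) ≤ Real.pi := by linarith [Real.pi_gt_three]
  exact (div_le_self (by positivity) h8).trans h7

end Pool.Agent.H270Z
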