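import Mathlib

set_option autoImplicit false

namespace Pool.Agent.H270Z

open Complex MeasureTheory Set Filter Topology

noncomputable def Ginv (s : ℂ) : ℂ := (Complex.Gamma s)⁻¹

theorem Ginv_diff : Differentiable ℂ Ginv := Complex.differentiable_one_div_Gamma

noncomputable def phi (j : ℕ) : ℂ → ℂ := dslope Ginv (-(j : ℂ))

theorem phi_diff (j : ℕ) : Differentiable ℂ (phi j) := by
  rw [← differentiableOn_univ]
  exact (Complex.differentiableOn_dslope univ_mem).2 Ginv_diff.differentiableOn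

theorem phi_eq (j : ℕ) {s : ℂ} (hs : s + j ≠ 0) : phi j s = Ginv s / (s + j) := by
  have h : s ≠ -(j : ℂ) := fun h => hs (by rw [h]; ring)
  rw [phi, dslope_of_ne _ h, slope_def_field]
  simp [Ginv, Complex.Gamma_neg_nat_eq_zero]

theorem phi_bound (R : ℝ) : ∃ M : ℝ, 0 ≤ M ∧ ∀ (j : ℕ) (s : ℂ), s ∈ Metric.closedBall (0 : ℂ) R →
    ‖phi j s‖ ≤ M := by
  have hK := isCompact_closedBall (0 : ℂ) R
  obtain ⟨M0, hM0⟩ := hK.exists_bound_of_continuousOn Ginv_diff.continuous.continuousOn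
  choose Mj hMj using fun j : ℕ =>
    hK.exists_bound_of_continuousOn (phi_diff j).continuous.continuousOn
  obtain ⟨J, hJ⟩ := exists_nat_ge (R + 1)
  refine ⟨|M0| + ∑ j ∈ Finset.range J, |Mj j|, by positivity, fun j s hs => ?_⟩
  have hsum : 0 ≤ ∑ j ∈ Finset.range J, |Mj j| := Finset.sum_nonneg fun _ _ => abs_nonneg _
  rcases lt_or_ge j J with h | h
  · have h1 : |Mj j| ≤ ∑ j ∈ Finset.range J, |Mj j| :=
      Finset.single_le_sum (f := fun j => |Mj j|) (fun _ _ => abs_nonneg _) (Finset.mem_range.2 h)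
    have h2 := hMj j s hs
    have h3 := le_abs_self (Mj j)
    have h4 := abs_nonneg M0
    linarith
  · have hs' : ‖s‖ ≤ R := by simpa using hs
    have hj : (J : ℝ) ≤ j := by exact_mod_cast h
    have h1 : 1 ≤ ‖s + j‖ := by
      have := norm_sub_norm_le (j : ℂ) (-s)
      rw [norm_neg, sub_neg_eq_add, add_comm, Complex.norm_natCast] at this
      linarith
    have hne : s + j ≠ 0 := by
      intro h0; rw [h0] at h1; norm_num at h1
    rw [phi_eq j hne, norm_div]
    have h2 := hM0 s hs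
    have h3 := le_abs_self M0
    have h4 : ‖Ginv s‖ / ‖s + j‖ ≤ ‖Ginv s‖ := div_le_self (norm_nonneg _) h1
    linarith

noncomputable def tail (b : ℕ → ℂ) (δ : ℝ) (s : ℂ) : ℂ :=
  ∑' j : ℕ, b j * (δ : ℂ) ^ j * ((δ : ℂ) ^ s * phi j s)

theorem tail_diff (b : ℕ → ℂ) {δ : ℝ} (hδ : 0 < δ) (hb : Summable fun n => ‖b n‖ * δ ^ n) :
    Differentiable ℂ (tail b δ) := by
  intro s0
  have hδ' : (δ : ℂ) ≠ 0 := Complex.ofReal_ne_zero.2 hδ.ne'
  have hd : Differentiable ℂ fun s : ℂ => (δ : ℂ) ^ s := fun s =>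
    differentiableAt_id.const_cpow (Or.inl hδ')
  set R := ‖s0‖ + 1 with hR
  obtain ⟨M, hM0, hM⟩ := phi_bound R
  obtain ⟨M1, hM1⟩ := (isCompact_closedBall (0 : ℂ) R).exists_bound_of_continuousOn
    hd.continuous.continuousOn
  have hU : DifferentiableOn ℂ (tail b δ) (Metric.ball 0 R) := by
    refine Complex.differentiableOn_tsum_of_summable_norm (hb.mul_right (M1 * M)) (fun j => ?_)
      Metric.isOpen_ball (fun j s hs => ?_)
    · exact ((hd.mul (phi_diff j)).const_mul _).differentiableOn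
    · have hs' := Metric.ball_subset_closedBall hs
      rw [norm_mul, norm_mul, norm_mul, norm_pow, Complex.norm_real, Real.norm_eq_abs,
        abs_of_pos hδ]
      refine mul_le_mul_of_nonneg_left ?_ (by positivity)
      exact mul_le_mul (hM1 s hs') (hM j s hs') (norm_nonneg _)
        ((norm_nonneg _).trans (hM1 s hs'))
  exact hU.differentiableAt (Metric.isOpen_ball.mem_nhds (by simp [hR]))

theorem rpow_le_add {x a b σ : ℝ} (hx : 0 < x) (ha : a ≤ σ) (hb : σ ≤ b) :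
    x ^ σ ≤ x ^ a + x ^ b := by
  have h1 := Real.rpow_nonneg hx.le a
  have h2 := Real.rpow_nonneg hx.le b
  rcases le_total x 1 with h | h
  · have := Real.rpow_le_rpow_of_exponent_ge hx h ha
    linarith
  · have := Real.rpow_le_rpow_of_exponent_le h hb
    linarith

/-- the series part -/
noncomputable def qterm (r : ℕ) (b : ℕ → ℂ) (δ : ℝ) (s : ℂ) (n : ℕ) : ℂ :=
  b n * (δ : ℂ) ^ (s - r + n) / (s - r + n)

theorem norm_qterm_le (r : ℕ) (b : ℕ → ℂ) {δ : ℝ} (hδ : 0 < δ) {s : ℂ} {κ : ℝ} (hκ : 0 < κ)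
    (n : ℕ) (hs : κ ≤ ‖s - r + n‖) :
    ‖qterm r b δ s n‖ ≤ ‖b n‖ * δ ^ n * (δ ^ (s.re - r) / κ) := by
  rw [qterm, norm_div, norm_mul, Complex.norm_cpow_eq_rpow_re_of_pos hδ]
  have : (s - r + n).re = (s.re - r) + n := by simp
  rw [this, Real.rpow_add hδ, Real.rpow_natCast]
  have h1 := Real.rpow_nonneg hδ.le (s.re - r)
  calc ‖b n‖ * (δ ^ (s.re - r) * δ ^ n) / ‖s - r + n‖
      ≤ ‖b n‖ * (δ ^ (s.re - r) * δ ^ n) / κ := by gcongr
    _ = _ := by ring

theorem qterm_summable (r : ℕ) (b : ℕ → ℂ) {δ : ℝ} (hδ : 0 < δ)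
    (hb : Summable fun n => ‖b n‖ * δ ^ n) {s : ℂ} {κ : ℝ} (hκ : 0 < κ)
    (hs : ∀ n : ℕ, κ ≤ ‖s - r + n‖) : Summable (qterm r b δ s) :=
  Summable.of_norm_bounded (hb.mul_right _) fun n => norm_qterm_le r b hδ hκ n (hs n)

noncomputable def Pfun (r : ℕ) (b : ℕ → ℂ) (δ : ℝ) (s : ℂ) : ℂ :=
  Ginv s * (∑ n ∈ Finset.range r, qterm r b δ s n) +
    tail (fun j => b (j + r)) δ s

theorem Pfun_diff (r : ℕ) (b : ℕ → ℂ) {δ : ℝ} (hδ : 0 < δ)
    (hb : Summable fun n => ‖b n‖ * δ ^ n) :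
    DifferentiableOn ℂ (Pfun r b δ) {s : ℂ | ∀ k : ℕ, 1 ≤ k → k ≤ r → s ≠ (k : ℂ)} := by
  have hδ' : (δ : ℂ) ≠ 0 := Complex.ofReal_ne_zero.2 hδ.ne'
  have hb' : Summable fun n => ‖b (n + r)‖ * δ ^ n := by
    have := ((summable_nat_add_iff r).2 hb).mul_right ((δ ^ r)⁻¹)
    refine this.congr fun n => ?_
    have : δ ^ r ≠ 0 := by positivity
    field_simp
    ring
  refine (Ginv_diff.differentiableOn.mul ?_).add (tail_diff _ hδ hb').differentiableOn
  refine DifferentiableOn.fun_sum fun n hn => ?_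
  have hn' := Finset.mem_range.1 hn
  intro s hs
  have hne : s - r + n ≠ 0 := by
    intro h
    apply hs (r - n) (by omega) (by omega)
    rw [Nat.cast_sub hn'.le]
    linear_combination h
  have h1 : DifferentiableAt ℂ (fun s : ℂ => s - r + n) s := by fun_prop
  exact (((h1.const_cpow (Or.inl hδ')).const_mul (b n)).div h1 hne).differentiableWithinAt

theorem Pfun_eq (r : ℕ) (b : ℕ → ℂ) {δ : ℝ} (hδ : 0 < δ)
    (hb : Summable fun n => ‖b n‖ * δ ^ n) {s : ℂ} {κ : ℝ} (hκ : 0 < κ)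
    (hs : ∀ n : ℕ, κ ≤ ‖s - r + n‖) : Pfun r b δ s = Ginv s * ∑' n, qterm r b δ s n := by
  have hδ' : (δ : ℂ) ≠ 0 := Complex.ofReal_ne_zero.2 hδ.ne'
  rw [← (qterm_summable r b hδ hb hκ hs).sum_add_tsum_nat_add r, Pfun, mul_add, tail,
    ← tsum_mul_left]
  congr 1
  refine tsum_congr fun j => ?_
  have e : s - r + ((j + r : ℕ) : ℂ) = s + j := by push_cast; ring
  have hne : s + j ≠ 0 := by
    intro h
    have := hs (j + r)
    rw [e, h, norm_zero] at this
    linarith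
  rw [qterm, e, phi_eq j hne, Complex.cpow_add _ _ hδ', Complex.cpow_natCast]
  ring

theorem small_integral (r : ℕ) (b : ℕ → ℂ) {δ : ℝ} (hδ : 0 < δ)
    (hb : Summable fun n => ‖b n‖ * δ ^ n) (g : ℝ → ℂ)
    (hg : ∀ t ∈ Ioc (0 : ℝ) δ, HasSum (fun n => b n * (t : ℂ) ^ n) (g t * (t : ℂ) ^ r))
    {s : ℂ} (hs : (r : ℝ) < s.re) :
    ∫ t in Ioc (0 : ℝ) δ, (t : ℂ) ^ (s - 1) • g t = ∑' n, qterm r b δ s n := by
  have hre : ∀ n : ℕ, -1 < (s - r + n - 1).re := by
    intro n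
    have : (0 : ℝ) ≤ n := Nat.cast_nonneg n
    simp only [Complex.sub_re, Complex.add_re, Complex.natCast_re, Complex.one_re]
    linarith
  have hint : ∀ n : ℕ, IntegrableOn (fun t : ℝ => b n * (t : ℂ) ^ (s - r + n - 1)) (Ioc 0 δ) :=
    fun n => (((intervalIntegrable_iff_integrableOn_Ioc_of_le hδ.le).1
      (intervalIntegral.intervalIntegrable_cpow' (hre n))).const_mul (b n))
  have hint0 : IntegrableOn (fun t : ℝ => t ^ (s.re - r - 1)) (Ioc 0 δ) :=
    (intervalIntegrable_iff_integrableOn_Ioc_of_le hδ.le).1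
      (intervalIntegral.intervalIntegrable_rpow' (by linarith))
  have hsum : Summable fun n : ℕ => ∫ t in Ioc (0 : ℝ) δ, ‖b n * (t : ℂ) ^ (s - r + n - 1)‖ := by
    refine Summable.of_nonneg_of_le (fun n => integral_nonneg fun t => norm_nonneg _) (fun n => ?_)
      (hb.mul_right (∫ t in Ioc (0 : ℝ) δ, t ^ (s.re - r - 1)))
    rw [← integral_const_mul]
    refine setIntegral_mono_on (hint n).norm (hint0.const_mul _) measurableSet_Ioc fun t ht => ?_
    rw [norm_mul, Complex.norm_cpow_eq_rpow_re_of_pos ht.1]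
    have : (s - r + n - 1).re = n + (s.re - r - 1) := by simp; ring
    rw [this, Real.rpow_add ht.1, Real.rpow_natCast, ← mul_assoc]
    have h1 := Real.rpow_nonneg ht.1.le (s.re - r - 1)
    have h2 := ht.1.le
    have h3 := ht.2
    gcongr
  have H := hasSum_integral_of_summable_integral_norm hint hsum
  have e1 : ∫ t in Ioc (0 : ℝ) δ, (t : ℂ) ^ (s - 1) • g t =
      ∫ t in Ioc (0 : ℝ) δ, ∑' n : ℕ, b n * (t : ℂ) ^ (s - r + n - 1) := by
    refine setIntegral_congr_fun measurableSet_Ioc fun t ht => ?_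
    have ht' : (t : ℂ) ≠ 0 := Complex.ofReal_ne_zero.2 ht.1.ne'
    have h1 := (hg t ht).mul_left ((t : ℂ) ^ (s - r - 1))
    have h2 : HasSum (fun n : ℕ => b n * (t : ℂ) ^ (s - r + n - 1)) ((t : ℂ) ^ (s - 1) • g t) := by
      convert! h1 using 1
      · funext n
        have : s - r + n - 1 = (s - r - 1) + n := by ring
        rw [this, Complex.cpow_add _ _ ht', Complex.cpow_natCast]
        ring
      · have : s - 1 = (s - r - 1) + r := by ring
        rw [this, Complex.cpow_add _ _ ht', Complex.cpow_natCast, smul_eq_mul]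
        ring
    exact h2.tsum_eq.symm
  rw [e1, ← H.tsum_eq]
  refine tsum_congr fun n => ?_
  rw [integral_const_mul, ← intervalIntegral.integral_of_le hδ.le,
    integral_cpow (Or.inl (hre n)), qterm]
  have hne : s - r + n ≠ 0 := by
    intro h
    have := hre n
    rw [h] at this
    norm_num at this
  simp only [sub_add_cancel, Complex.ofReal_zero]
  rw [Complex.zero_cpow hne, sub_zero, mul_div_assoc]

end Pool.Agent.H270Z
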