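import Mathlib
import Pool.Agent.H270Z.Gam
import Pool.Agent.H270Z.Tail

set_option autoImplicit false

namespace Pool.Agent.H270Z

open Complex MeasureTheory Set Filter Topology Asymptotics

theorem exists_cont {ι : Type} [Countable ι] (r : ℕ) (p : ι → ℝ) (hp : ∀ i, 0 < p i)
    (g : ℝ → ℂ)
    (hg : ∀ t ∈ Ioi (0 : ℝ), HasSum (fun i => (1 : ℂ) * (Real.exp (-p i * t) : ℝ)) (g t))
    (hsum : ∀ σ : ℝ, (r : ℝ) < σ → Summable fun i => 1 / p i ^ σ)
    (h : ℂ → ℂ) (hh : AnalyticAt ℂ h 0) (hgh : ∀ t : ℝ, 0 < t → g t * (t : ℂ) ^ r = h t)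
    (hcont : ContinuousOn g (Ioi 0)) {a : ℝ} (ha : 0 < a)
    (hdec : g =O[atTop] fun t => Real.exp (-a * t)) :
    ∃ F : ℂ → ℂ, DifferentiableOn ℂ F {s : ℂ | ∀ k : ℕ, 1 ≤ k → k ≤ r → s ≠ (k : ℂ)} ∧
      (∀ s : ℂ, (r : ℝ) < s.re → HasSum (fun i => ((p i : ℝ) : ℂ) ^ (-s)) (F s)) ∧
      ∃ A : ℝ, 0 ≤ A ∧ ∀ σ t : ℝ, 1 ≤ σ → σ ≤ 4 → 1 ≤ t →
        ‖F ((σ : ℂ) + (t : ℂ) * I)‖ ≤ A * Real.exp (Real.pi * t) := by
  have hhc : ContinuousAt h 0 := hh.continuousAt
  obtain ⟨P, R, hP⟩ := hh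
  obtain ⟨δ', hδ0, hδR⟩ := ENNReal.lt_iff_exists_nnreal_btwn.1 hP.r_pos
  have hδ : (0 : ℝ) < δ' := by exact_mod_cast hδ0
  set δ : ℝ := (δ' : ℝ) with hδdef
  set b : ℕ → ℂ := fun n => P.coeff n with hbdef
  have hb : Summable fun n => ‖b n‖ * δ ^ n := by
    have := P.summable_norm_mul_pow (hδR.trans_le hP.r_le)
    simpa [hbdef, FormalMultilinearSeries.norm_apply_eq_norm_coef] using this
  have hser : ∀ t ∈ Ioc (0 : ℝ) δ, HasSum (fun n => b n * (t : ℂ) ^ n) (g t * (t : ℂ) ^ r) := by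
    intro t ht
    have hmem : (t : ℂ) ∈ Metric.eball (0 : ℂ) R := by
      rw [Metric.mem_eball, edist_zero_right]
      refine lt_of_le_of_lt ?_ hδR
      rw [← ofReal_norm, ← ENNReal.ofReal_coe_nnreal]
      apply ENNReal.ofReal_le_ofReal
      rw [Complex.norm_real, Real.norm_eq_abs, abs_of_pos ht.1]
      exact ht.2
    have := hP.hasSum hmem
    rw [zero_add, ← hgh t ht.1] at this
    convert! this using 2 with n
    rw [FormalMultilinearSeries.apply_eq_pow_smul_coeff, smul_eq_mul, mul_comm]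
  have hloc : LocallyIntegrableOn g (Ioi 0) := hcont.locallyIntegrableOn measurableSet_Ioi
  set g2 : ℝ → ℂ := (Ioi δ).indicator g with hg2
  have hloc2 : LocallyIntegrableOn g2 (Ioi 0) := by
    intro x hx
    obtain ⟨u, hu, hu'⟩ := hloc x hx
    exact ⟨u, hu, hu'.indicator measurableSet_Ioi⟩
  have htop2 : g2 =O[atTop] fun t => Real.exp (-a * t) := by
    refine IsBigO.trans (IsBigO.of_bound' (Eventually.of_forall fun t => ?_)) hdec
    exact norm_indicator_le_norm_self _ _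
  have hbot2 : ∀ c : ℝ, g2 =O[𝓝[>] 0] (fun t : ℝ => t ^ (-c)) := by
    intro c
    refine (isBigO_zero _ _).congr' ?_ EventuallyEq.rfl
    filter_upwards [Ioo_mem_nhdsGT hδ] with t ht
    rw [hg2, indicator_of_notMem]
    exact fun h => lt_asymm h ht.2
  have hEconv : ∀ s : ℂ, MellinConvergent g2 s := fun s =>
    mellinConvergent_of_isBigO_rpow_exp ha hloc2 htop2 (hbot2 (s.re - 1)) (by linarith)
  have hEdiff : Differentiable ℂ (mellin g2) := fun s =>
    mellin_differentiableAt_of_isBigO_rpow_exp ha hloc2 htop2 (hbot2 (s.re - 1)) (by linarith)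
  have hbot : g =O[𝓝[>] 0] (fun t : ℝ => t ^ (-(r : ℝ))) := by
    have h1 : Tendsto (fun t : ℝ => h t) (𝓝[>] 0) (𝓝 (h 0)) := by
      have : Tendsto (fun t : ℝ => (t : ℂ)) (𝓝[>] 0) (𝓝 0) := by
        have := Complex.continuous_ofReal.tendsto 0
        rw [Complex.ofReal_zero] at this
        exact this.mono_left nhdsWithin_le_nhds
      exact hhc.tendsto.comp this
    obtain ⟨M, hM⟩ := (h1.isBigO_one ℝ).bound
    refine IsBigO.of_bound M ?_
    filter_upwards [hM, self_mem_nhdsWithin] with t ht ht0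
    have ht0' : (0 : ℝ) < t := ht0
    rw [← hgh t ht0', norm_mul, norm_pow, Complex.norm_real, Real.norm_eq_abs,
      abs_of_pos ht0', norm_one, mul_one] at ht
    rw [Real.norm_eq_abs, abs_of_pos (Real.rpow_pos_of_pos ht0' _), Real.rpow_neg ht0'.le,
      Real.rpow_natCast, ← div_eq_mul_inv, le_div_iff₀ (by positivity)]
    exact ht
  refine ⟨fun s => Ginv s * mellin g2 s + Pfun r b δ s, ?_, ?_, ?_⟩
  · exact (Ginv_diff.mul hEdiff).differentiableOn.add (Pfun_diff r b hδ hb)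
  · intro s hs
    have hr0 : (0 : ℝ) ≤ r := Nat.cast_nonneg r
    have hs0 : 0 < s.re := by linarith
    have hκ : ∀ n : ℕ, s.re - r ≤ ‖s - r + n‖ := by
      intro n
      have h1 := Complex.re_le_norm (s - r + n)
      have : (0 : ℝ) ≤ n := Nat.cast_nonneg n
      simp only [Complex.add_re, Complex.sub_re, Complex.natCast_re] at h1
      linarith
    have hconv : MellinConvergent g s :=
      mellinConvergent_of_isBigO_rpow_exp ha hloc hdec hbot hs
    have hsplit : mellin g s = mellin g2 s + ∑' n, qterm r b δ s n := by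
      rw [← small_integral r b hδ hb g hser hs, mellin, ← Ioc_union_Ioi_eq_Ioi hδ.le,
        setIntegral_union (Ioc_disjoint_Ioi_same) measurableSet_Ioi
          (hconv.mono_set Ioc_subset_Ioi_self) (hconv.mono_set (Ioi_subset_Ioi hδ.le)),
        add_comm]
      congr 1
      rw [mellin]
      have : ∀ t : ℝ, (t : ℂ) ^ (s - 1) • g2 t =
          (Ioi δ).indicator (fun t : ℝ => (t : ℂ) ^ (s - 1) • g t) t := by
        intro t
        by_cases ht : t ∈ Ioi δ
        · rw [hg2, indicator_of_mem ht, indicator_of_mem ht]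
        · rw [hg2, indicator_of_notMem ht, indicator_of_notMem ht, smul_zero]
      simp_rw [this]
      rw [setIntegral_indicator measurableSet_Ioi, Ioi_inter_Ioi, sup_eq_right.2 hδ.le]
    have H := hasSum_mellin (a := fun _ => (1 : ℂ)) (p := p) (F := g) (s := s)
      (fun i => Or.inr (hp i)) hs0 hg (by simpa using hsum s.re hs)
    have hG : Complex.Gamma s ≠ 0 := Complex.Gamma_ne_zero_of_re_pos hs0
    have H2 := H.mul_left (Ginv s)
    show HasSum _ (Ginv s * mellin g2 s + Pfun r b δ s)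
    rw [Pfun_eq r b hδ hb (sub_pos.2 hs) hκ, ← mul_add, ← hsplit]
    convert! H2 using 2 with i
    rw [Ginv, Complex.cpow_neg]
    field_simp
  · obtain ⟨A, hA0, hA⟩ := invGamma_bound
    set B1 : ℝ := (∫ t in Ioi (0 : ℝ), ‖(t : ℂ) ^ ((1 : ℂ) - 1) • g2 t‖) +
      ∫ t in Ioi (0 : ℝ), ‖(t : ℂ) ^ ((4 : ℂ) - 1) • g2 t‖ with hB1
    set B2 : ℝ := (∑' n, ‖b n‖ * δ ^ n) * (δ ^ ((1 : ℝ) - r) + δ ^ ((4 : ℝ) - r)) with hB2
    have hB10 : 0 ≤ B1 := add_nonneg (integral_nonneg fun t => norm_nonneg _)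
      (integral_nonneg fun t => norm_nonneg _)
    have hS0 : 0 ≤ ∑' n, ‖b n‖ * δ ^ n := tsum_nonneg fun n => by positivity
    have hB20 : 0 ≤ B2 := by positivity
    refine ⟨A * (B1 + B2), by positivity, fun σ t h1 h4 ht => ?_⟩
    set s : ℂ := (σ : ℂ) + (t : ℂ) * I with hs
    have hre : s.re = σ := by simp [hs]
    have him : s.im = t := by simp [hs]
    have hκ : ∀ n : ℕ, 1 ≤ ‖s - r + n‖ := by
      intro n
      have h1 := Complex.im_le_norm (s - r + n)
      simp only [Complex.add_im, Complex.sub_im, Complex.natCast_im, him] at h1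
      linarith
    have hE : ‖mellin g2 s‖ ≤ B1 := by
      rw [mellin, hB1, ← integral_add (hEconv 1).norm (hEconv 4).norm]
      refine (norm_integral_le_integral_norm _).trans ?_
      refine setIntegral_mono_on (hEconv s).norm ((hEconv 1).norm.add (hEconv 4).norm)
        measurableSet_Ioi fun x hx => ?_
      have hx' : (0 : ℝ) < x := hx
      simp only [norm_smul]
      rw [Complex.norm_cpow_eq_rpow_re_of_pos hx', Complex.norm_cpow_eq_rpow_re_of_pos hx',
        Complex.norm_cpow_eq_rpow_re_of_pos hx', ← add_mul]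
      refine mul_le_mul_of_nonneg_right (rpow_le_add hx' ?_ ?_) (norm_nonneg _)
      · simp [hre, h1]
      · simp [hre]; linarith
    have hQ : ‖∑' n, qterm r b δ s n‖ ≤ B2 := by
      have h2 : ‖∑' n, qterm r b δ s n‖ ≤ ∑' n, ‖b n‖ * δ ^ n * (δ ^ (s.re - r) / 1) :=
        tsum_of_norm_bounded (hb.mul_right _).hasSum
          fun n => norm_qterm_le r b hδ one_pos n (hκ n)
      rw [tsum_mul_right, div_one, hre] at h2
      refine h2.trans (mul_le_mul_of_nonneg_left (rpow_le_add hδ ?_ ?_) hS0) <;> linarith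
    have hGi : ‖Ginv s‖ ≤ A * Real.exp (Real.pi * t) := hA σ t h1 h4 ht
    show ‖Ginv s * mellin g2 s + Pfun r b δ s‖ ≤ _
    rw [Pfun_eq r b hδ hb one_pos hκ, ← mul_add, norm_mul]
    have h3 : ‖mellin g2 s + ∑' n, qterm r b δ s n‖ ≤ B1 + B2 :=
      (norm_add_le _ _).trans (add_le_add hE hQ)
    calc _ ≤ (A * Real.exp (Real.pi * t)) * (B1 + B2) :=
          mul_le_mul hGi h3 (norm_nonneg _) (by positivity)
      _ = _ := by ring

end Pool.Agent.H270Z
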