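import Mathlib
import Pool.Agent.H270Z.Cont

set_option autoImplicit false

namespace Pool.Agent.H270Z

open Complex MeasureTheory Set Filter Topology Asymptotics

theorem hasSum_pi_prod : ∀ (r : ℕ) (f : Fin r → ℕ → ℝ) (S : Fin r → ℝ),
    (∀ j n, 0 ≤ f j n) → (∀ j, HasSum (f j) (S j)) →
    HasSum (fun m : Fin r → ℕ => ∏ j, f j (m j)) (∏ j, S j) := by
  intro r
  induction r with
  | zero =>
    intro f S _ _
    simp only [Finset.univ_eq_empty, Finset.prod_empty]
    exact hasSum_unique (fun _ : Fin 0 → ℕ => (1 : ℝ))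
  | succ r ih =>
    intro f S h0 hS
    have h1 := ih (fun j => f j.succ) (fun j => S j.succ) (fun j n => h0 _ _) (fun j => hS _)
    have h2 : Summable fun x : ℕ × (Fin r → ℕ) => f 0 x.1 * ∏ j : Fin r, f j.succ (x.2 j) :=
      (hS 0).summable.mul_of_nonneg h1.summable (fun n => h0 0 n)
        (fun m => Finset.prod_nonneg fun j _ => h0 _ _)
    have h3 := (hS 0).mul h1 h2
    rw [Fin.prod_univ_succ]
    refine ((Fin.consEquiv fun _ : Fin (r + 1) => ℕ).hasSum_iff).1 ?_
    convert! h3 using 2 with x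
    simp [Fin.prod_univ_succ, Fin.consEquiv]

theorem barnes_pos {r : ℕ} {a : ℝ} (ha : 0 < a) {w : Fin r → ℝ} (hw : ∀ j, 0 < w j)
    (m : Fin r → ℕ) : 0 < a + ∑ j, (m j : ℝ) * w j := by
  have : 0 ≤ ∑ j, (m j : ℝ) * w j := Finset.sum_nonneg fun j _ => by
    have := hw j; positivity
  linarith

theorem barnes_summable {r : ℕ} (hr : 1 ≤ r) {a : ℝ} (ha : 0 < a) {w : Fin r → ℝ}
    (hw : ∀ j, 0 < w j) {σ : ℝ} (hσ : (r : ℝ) < σ) :
    Summable fun m : Fin r → ℕ => 1 / (a + ∑ j, (m j : ℝ) * w j) ^ σ := by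
  have hr0 : (0 : ℝ) < r := by exact_mod_cast hr
  have hτ : 1 < σ / r := by rw [lt_div_iff₀ hr0]; linarith
  have hpos : ∀ j (n : ℕ), 0 < a + n * w j := fun j n => by have := hw j; positivity
  have h1 : ∀ j, Summable fun n : ℕ => 1 / (a + n * w j) ^ (σ / r) := by
    intro j
    have := ((Real.summable_one_div_nat_add_rpow (a / w j) (σ / r)).2 hτ).mul_left
      (1 / w j ^ (σ / r))
    refine this.congr fun n => ?_
    have hj := hw j
    have e : a + n * w j = w j * |n + a / w j| := by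
      rw [abs_of_pos (by positivity)]; field_simp; ring
    rw [e, Real.mul_rpow hj.le (abs_nonneg _), one_div_mul_one_div]
  have h2 := (hasSum_pi_prod r (fun j n => 1 / (a + n * w j) ^ (σ / r)) _
    (fun j n => by have := hpos j n; positivity) (fun j => (h1 j).hasSum)).summable
  refine Summable.of_nonneg_of_le (fun m => by have := barnes_pos ha hw m; positivity)
    (fun m => ?_) h2
  have hm := barnes_pos ha hw m
  have h3 : ∀ j, a + m j * w j ≤ a + ∑ j, (m j : ℝ) * w j := by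
    intro j
    have := Finset.single_le_sum (f := fun j => (m j : ℝ) * w j)
      (fun j _ => by have := hw j; positivity) (Finset.mem_univ j)
    linarith
  have e : 1 / (a + ∑ j, (m j : ℝ) * w j) ^ σ =
      ∏ _j : Fin r, 1 / (a + ∑ j, (m j : ℝ) * w j) ^ (σ / r) := by
    rw [Finset.prod_const, Finset.card_univ, Fintype.card_fin, one_div_pow, ← Real.rpow_natCast,
      ← Real.rpow_mul hm.le, div_mul_cancel₀ _ hr0.ne']
  rw [e]
  refine Finset.prod_le_prod (fun j _ => by positivity) fun j _ => ?_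
  have := hpos j (m j)
  have := h3 j
  gcongr

noncomputable def uu : ℂ → ℂ := dslope (fun z => -Complex.exp (-z)) 0

theorem uu_diff : Differentiable ℂ uu := by
  rw [← differentiableOn_univ]
  refine (Complex.differentiableOn_dslope univ_mem).2 ?_
  fun_prop

theorem uu_zero : uu 0 = 1 := by
  rw [uu, dslope_same]
  have : HasDerivAt (fun z : ℂ => -Complex.exp (-z)) 1 0 := by
    have h := ((hasDerivAt_neg (0 : ℂ)).cexp).neg
    convert! h using 1
    simp
  exact this.deriv

theorem uu_mul (z : ℂ) : z * uu z = 1 - Complex.exp (-z) := by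
  have := sub_smul_dslope (fun z : ℂ => -Complex.exp (-z)) 0 z
  simp only [sub_zero, smul_eq_mul, neg_zero, Complex.exp_zero] at this
  rw [uu, this]; ring

theorem barnes_cont {r : ℕ} (hr : 1 ≤ r) {a : ℝ} (ha : 0 < a) {w : Fin r → ℝ}
    (hw : ∀ j, 0 < w j) :
    ∃ F : ℂ → ℂ, DifferentiableOn ℂ F {s : ℂ | ∀ k : ℕ, 1 ≤ k → k ≤ r → s ≠ (k : ℂ)} ∧
      (∀ s : ℂ, (r : ℝ) < s.re →
        HasSum (fun m : Fin r → ℕ => ((a + ∑ j, (m j : ℝ) * w j : ℝ) : ℂ) ^ (-s)) (F s)) ∧
      ∃ A : ℝ, 0 ≤ A ∧ ∀ σ t : ℝ, 1 ≤ σ → σ ≤ 4 → 1 ≤ t →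
        ‖F ((σ : ℂ) + (t : ℂ) * I)‖ ≤ A * Real.exp (Real.pi * t) := by
  set g0 : ℝ → ℝ := fun t => Real.exp (-a * t) * ∏ j, (1 - Real.exp (-(w j * t)))⁻¹ with hg0
  have hlt : ∀ j (t : ℝ), 0 < t → Real.exp (-(w j * t)) < 1 := by
    intro j t ht
    rw [Real.exp_lt_one_iff]
    have := hw j
    have : 0 < w j * t := by positivity
    linarith
  refine exists_cont r (fun m : Fin r → ℕ => a + ∑ j, (m j : ℝ) * w j) (barnes_pos ha hw)
    (fun t => (g0 t : ℂ)) ?_ (fun σ hσ => barnes_summable hr ha hw hσ)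
    (fun z => Complex.exp (-a * z) * ∏ j, ((w j : ℂ) * uu (w j * z))⁻¹) ?_ ?_ ?_ ha ?_
  · intro t ht
    have h1 := (hasSum_pi_prod r (fun j n => Real.exp (-(w j * t)) ^ n) _
      (fun j n => by positivity)
      (fun j => hasSum_geometric_of_lt_one (Real.exp_pos _).le (hlt j t ht))).mul_left
      (Real.exp (-a * t))
    have h2 := Complex.ofRealCLM.hasSum h1
    convert! h2 using 2 with m
    rw [one_mul, Complex.ofRealCLM_apply]
    congr 1
    simp_rw [← Real.exp_nat_mul]
    rw [← Real.exp_sum, ← Real.exp_add]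
    congr 1
    rw [neg_add, add_mul, neg_mul (∑ j, _), Finset.sum_mul, ← Finset.sum_neg_distrib]
    congr 1
    exact Finset.sum_congr rfl fun j _ => by ring
  · refine AnalyticAt.mul (by fun_prop) (Finset.analyticAt_fun_prod _ fun j _ => ?_)
    refine AnalyticAt.inv ?_ ?_
    · have : Differentiable ℂ fun z : ℂ => (w j : ℂ) * uu (w j * z) :=
        (uu_diff.comp (by fun_prop)).const_mul _
      exact this.analyticAt 0
    · simp only [mul_zero, uu_zero, mul_one]
      exact Complex.ofReal_ne_zero.2 (hw j).ne'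
  · intro t ht
    have ht' : (t : ℂ) ≠ 0 := Complex.ofReal_ne_zero.2 ht.ne'
    simp only [hg0]
    push_cast
    rw [mul_assoc]
    congr 1
    have : (t : ℂ) ^ r = ∏ _j : Fin r, (t : ℂ) := by simp
    rw [this, ← Finset.prod_mul_distrib]
    refine Finset.prod_congr rfl fun j _ => ?_
    rw [← uu_mul]
    have hj : (w j : ℂ) ≠ 0 := Complex.ofReal_ne_zero.2 (hw j).ne'
    by_cases hu : uu (w j * t) = 0
    · simp [hu]
    · field_simp
  · refine Complex.continuous_ofReal.comp_continuousOn ?_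
    refine ContinuousOn.mul (by fun_prop) (continuousOn_finsetProd _ fun j _ => ?_)
    refine ContinuousOn.inv₀ (by fun_prop) fun t ht => ?_
    exact (sub_pos.2 (hlt j t ht)).ne'
  · refine IsBigO.of_bound (∏ j, (1 - Real.exp (-(w j * 1)))⁻¹) ?_
    filter_upwards [eventually_ge_atTop (1 : ℝ)] with t ht
    have ht0 : 0 < t := by linarith
    have hp : ∀ j, 0 < 1 - Real.exp (-(w j * t)) := fun j => sub_pos.2 (hlt j t ht0)
    rw [Complex.norm_real, hg0, norm_mul, mul_comm]
    refine mul_le_mul_of_nonneg_right ?_ (norm_nonneg _)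
    rw [Real.norm_eq_abs, abs_of_pos (Finset.prod_pos fun j _ => inv_pos.2 (hp j))]
    refine Finset.prod_le_prod (fun j _ => (inv_pos.2 (hp j)).le) fun j _ => ?_
    have h1 := sub_pos.2 (hlt j 1 one_pos)
    have h2 := hw j
    gcongr

end Pool.Agent.H270Z
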