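import Mathlib

set_option autoImplicit false

namespace Pool.Agent.H270Z.Dimer

open MeasureTheory

/-- Vertices of the cubic lattice. -/
abbrev V : Type := Fin 3 → ℤ

/-- Nearest neighbours: `ℓ¹` distance one. -/
def Adj (x y : V) : Prop := ∑ i, (x i - y i).natAbs = 1

/-- A dimer configuration (perfect matching), given by the partner map `x ↦ τ x`.
It carries the product sigma-algebra. -/
abbrev Config : Type := {τ : V → V // ∀ x, Adj x (τ x) ∧ τ (τ x) = x}

/-- The completions of `τ` inside `Λ`: the configurations containing every edge of `τ`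
that is not contained in `Λ`. -/
def completions (Λ : Finset V) (τ : Config) : Set Config :=
  {τ' | ∀ x, ¬ (x ∈ Λ ∧ τ.1 x ∈ Λ) → τ'.1 x = τ.1 x}

/-- Gibbs measure: a probability measure such that, for every finite `Λ`, conditionally on the
edges not contained in `Λ` (events `B` determined by them) the configuration is uniform among
the completions. -/
def IsGibbs (ν : Measure Config) : Prop :=
  IsProbabilityMeasure ν ∧
  ∀ (Λ : Finset V) (A B : Set Config), MeasurableSet A → MeasurableSet B →
    (∀ τ τ' : Config, τ' ∈ completions Λ τ → (τ ∈ B ↔ τ' ∈ B)) →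
    ν (A ∩ B) = ∫⁻ τ in B, ProbabilityTheory.uniformOn (completions Λ τ) A ∂ν

/-- Translation of a configuration by `v`. -/
def shift (v : V) (τ : Config) : Config :=
  ⟨fun x => τ.1 (x - v) + v, fun x => by
    refine ⟨?_, by simp [(τ.2 (x - v)).2]⟩
    refine Eq.trans (Finset.sum_congr rfl fun i _ => ?_) (τ.2 (x - v)).1
    congr 1
    simp only [Pi.add_apply, Pi.sub_apply]
    ring⟩

/-- Ergodic Gibbs measure: Gibbs, invariant under the even translations, and every event
invariant under all even translations has probability `0` or `1`. -/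
def IsErgodicGibbs (ν : Measure Config) : Prop :=
  IsGibbs ν ∧
  (∀ v : V, Even (∑ i, v i) → ∀ A : Set Config, MeasurableSet A → ν (shift v ⁻¹' A) = ν A) ∧
  ∀ A : Set Config, MeasurableSet A →
    (∀ v : V, Even (∑ i, v i) → shift v ⁻¹' A = A) → ν A = 0 ∨ ν A = 1

/-- Mean current `E[τ(0) - 0]`. -/
noncomputable def meanCurrent (ν : Measure Config) : Fin 3 → ℝ :=
  fun i => ∫ τ, ((τ.1 0 i : ℤ) : ℝ) ∂ν

/-- The union of two configurations as a graph (a doubled edge is one edge). -/
def unionGraph (τ₁ τ₂ : Config) : SimpleGraph V :=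
  SimpleGraph.fromRel fun x y => y = τ₁.1 x ∨ y = τ₂.1 x

end Pool.Agent.H270Z.Dimer
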