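import Mathlib
import Pool.Agent.H270Z.DimerDefs

set_option autoImplicit false

namespace Pool.Agent.H270Z.Dimer

open MeasureTheory

def hh (x : V) : ℤ := x 0 + x 1 + x 2

def idx (c : ℤ) (x : V) : ℤ := (hh x / 2 + c) % 3

def ee (k : ℤ) : V := ![if k = 0 then 1 else 0, if k = 1 then 1 else 0, if k = 2 then 1 else 0]

def tf (c : ℤ) (x : V) : V := if hh x % 2 = 0 then x + ee (idx c x) else x - ee (idx c x)

theorem idx_cases (c : ℤ) (x : V) : idx c x = 0 ∨ idx c x = 1 ∨ idx c x = 2 := by
  unfold idx; omega

theorem hh_add (c : ℤ) (x y : V) : hh (x + ee (idx c y)) = hh x + 1 := by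
  rcases idx_cases c y with h | h | h <;> simp [hh, ee, h] <;> ring

theorem hh_sub (c : ℤ) (x y : V) : hh (x - ee (idx c y)) = hh x - 1 := by
  rcases idx_cases c y with h | h | h <;> simp [hh, ee, h] <;> ring

theorem tf_spec (c : ℤ) (x : V) : Adj x (tf c x) ∧ tf c (tf c x) = x := by
  constructor
  · unfold Adj tf
    rw [Fin.sum_univ_three]
    split_ifs <;> rcases idx_cases c x with h | h | h <;> simp [ee, h]
  · by_cases h : hh x % 2 = 0
    · have e : tf c x = x + ee (idx c x) := if_pos h
      have h1 := hh_add c x x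
      have h2 : idx c (x + ee (idx c x)) = idx c x := by
        rw [idx, h1, idx]; omega
      rw [e, tf, if_neg (by omega), h2, add_sub_cancel_right]
    · have e : tf c x = x - ee (idx c x) := if_neg h
      have h1 := hh_sub c x x
      have h2 : idx c (x - ee (idx c x)) = idx c x := by
        rw [idx, h1, idx]; omega
      rw [e, tf, if_pos (by omega), h2, sub_add_cancel]

def tau (c : ℤ) : Config := ⟨tf c, tf_spec c⟩

theorem tau_congr {c d : ℤ} (h : c % 3 = d % 3) : tau c = tau d := by
  apply Subtype.ext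
  funext x
  have : idx c x = idx d x := by unfold idx; omega
  simp [tau, tf, this]

theorem shift_tau (v : V) (hv : Even (∑ i, v i)) (c : ℤ) :
    shift v (tau c) = tau (c - hh v / 2) := by
  apply Subtype.ext
  funext x
  rw [Fin.sum_univ_three] at hv
  have hv' : hh v % 2 = 0 := Int.even_iff.1 hv
  have h1 : hh (x - v) = hh x - hh v := by simp [hh]; ring
  have h2 : idx c (x - v) = idx (c - hh v / 2) x := by
    rw [idx, idx, h1]; omega
  show tf c (x - v) + v = tf (c - hh v / 2) x
  rw [tf, tf, h2, h1]
  by_cases h : hh x % 2 = 0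
  · rw [if_pos h, if_pos (by omega)]; abel
  · rw [if_neg h, if_neg (by omega)]; abel

def co (c : ℤ) (x : V) : ℤ := if idx c x = 0 then x 0 else if idx c x = 1 then x 1 else x 2

theorem rigid (Λ : Finset V) (c : ℤ) : completions Λ (tau c) = {tau c} := by
  ext τ'
  simp only [completions, Set.mem_ofPred_eq, Set.mem_singleton_iff]
  refine ⟨fun H => ?_, fun H => by rw [H]; exact fun _ _ => rfl⟩
  have H' : ∀ x, x ∉ Λ → τ'.1 x = tf c x := fun x hx => H x fun h => hx h.1
  have key : ∀ x, hh x % 2 = 0 → τ'.1 (tf c x) = x := by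
    by_contra hne
    push Not at hne
    set D := Λ.filter fun x => hh x % 2 = 0 ∧ τ'.1 (tf c x) ≠ x with hD
    have hmem : ∀ x, hh x % 2 = 0 → τ'.1 (tf c x) ≠ x → x ∈ D := by
      intro x h1 h2
      refine Finset.mem_filter.2 ⟨?_, h1, h2⟩
      by_contra hx
      apply h2
      rw [← H' x hx, (τ'.2 x).2]
    obtain ⟨x0, a1, a2⟩ := hne
    obtain ⟨x, hx, hmax⟩ := D.exists_max_image (fun x => toLex (hh x, co c x)) ⟨x0, hmem x0 a1 a2⟩
    obtain ⟨-, b1, b2⟩ := Finset.mem_filter.1 hx
    have e : tf c x = x + ee (idx c x) := if_pos b1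
    set z := τ'.1 (tf c x) with hz
    have hadj := (τ'.2 (tf c x)).1
    rw [← hz, e, Adj, Fin.sum_univ_three] at hadj
    have hz2 : z 0 ≠ x 0 ∨ z 1 ≠ x 1 ∨ z 2 ≠ x 2 := by
      by_contra hc
      push Not at hc
      apply b2
      funext i
      fin_cases i
      · exact hc.1
      · exact hc.2.1
      · exact hc.2.2
    have hzD : z ∈ D := by
      refine hmem z ?_ fun h => ?_
      · unfold hh at b1 ⊢
        rcases idx_cases c x with h | h | h <;> simp [ee, h] at hadj <;> omega
      · apply b2
        have h1 : tf c z = tf c x := by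
          have := congrArg τ'.1 h
          rw [(τ'.2 _).2, hz, (τ'.2 _).2] at this
          rw [hz, this]
        have := congrArg (tf c) h1
        rwa [(tf_spec c z).2, (tf_spec c x).2] at this
    have hle := hmax z hzD
    rw [Prod.Lex.toLex_le_toLex] at hle
    simp only at hle
    rcases hle with h | ⟨h1, h2⟩
    · unfold hh at h
      rcases idx_cases c x with h | h | h <;> simp [ee, h] at hadj <;> omega
    · have h3 : idx c z = idx c x := by rw [idx, idx, h1]
      unfold co at h2
      rw [h3] at h2
      unfold hh at h1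
      rcases idx_cases c x with h | h | h <;> simp [ee, h] at hadj h2 <;> omega
  apply Subtype.ext
  funext x
  show τ'.1 x = tf c x
  by_cases h : hh x % 2 = 0
  · have := congrArg τ'.1 (key x h)
    rw [(τ'.2 _).2] at this
    exact this.symm
  · have e : tf c x = x - ee (idx c x) := if_neg h
    have := key (tf c x) (by rw [e, hh_sub]; omega)
    rwa [(tf_spec c x).2] at this

noncomputable def nu : Measure Config :=
  (3 : ENNReal)⁻¹ • (Measure.dirac (tau 0) + Measure.dirac (tau 1) + Measure.dirac (tau 2))

theorem nu_apply (A : Set Config) :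
    nu A = (3 : ENNReal)⁻¹ * (A.indicator 1 (tau 0) + A.indicator 1 (tau 1) +
      A.indicator 1 (tau 2)) := by
  simp [nu, Measure.dirac_apply, mul_add]

theorem third : (3 : ENNReal)⁻¹ * (1 + 1 + 1) = 1 := by
  have : (1 + 1 + 1 : ENNReal) = 3 := by norm_num
  rw [this]
  exact ENNReal.inv_mul_cancel (by norm_num) (by norm_num)

instance nu_prob : IsProbabilityMeasure nu := ⟨by rw [nu_apply]; simpa using third⟩

theorem nu_gibbs : IsGibbs nu := by
  classical
  refine ⟨nu_prob, fun Λ A B _ hB _ => ?_⟩
  have h : ∀ c, (∫⁻ τ in B, ProbabilityTheory.uniformOn (completions Λ τ) A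
      ∂(Measure.dirac (tau c))) = (A ∩ B).indicator 1 (tau c) := by
    intro c
    rw [setLIntegral_dirac, rigid, ProbabilityTheory.uniformOn_singleton]
    by_cases h1 : tau c ∈ A <;> by_cases h2 : tau c ∈ B <;> simp [h1, h2]
  rw [nu_apply, nu, Measure.restrict_smul, Measure.restrict_add, Measure.restrict_add,
    lintegral_smul_measure, lintegral_add_measure, lintegral_add_measure, h, h, h, smul_eq_mul]

theorem nu_ergodic : IsErgodicGibbs nu := by
  refine ⟨nu_gibbs, fun v hv A _ => ?_, fun A _ hA => ?_⟩
  · have h : ∀ c, (shift v ⁻¹' A).indicator (1 : Config → ENNReal) (tau c) =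
        A.indicator 1 (tau (c - hh v / 2)) := by
      intro c
      rw [← shift_tau v hv]
      rfl
    rw [nu_apply, nu_apply, h, h, h]
    congr 1
    have : hh v / 2 % 3 = 0 ∨ hh v / 2 % 3 = 1 ∨ hh v / 2 % 3 = 2 := by omega
    rcases this with k | k | k
    · rw [tau_congr (c := 0 - hh v / 2) (d := 0) (by omega),
        tau_congr (c := 1 - hh v / 2) (d := 1) (by omega),
        tau_congr (c := 2 - hh v / 2) (d := 2) (by omega)]
    · rw [tau_congr (c := 0 - hh v / 2) (d := 2) (by omega),
        tau_congr (c := 1 - hh v / 2) (d := 0) (by omega),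
        tau_congr (c := 2 - hh v / 2) (d := 1) (by omega)]
      ring
    · rw [tau_congr (c := 0 - hh v / 2) (d := 1) (by omega),
        tau_congr (c := 1 - hh v / 2) (d := 2) (by omega),
        tau_congr (c := 2 - hh v / 2) (d := 0) (by omega)]
      ring
  · have hv : Even (∑ i, (![2, 0, 0] : V) i) := by simp [Fin.sum_univ_three]
    have step : ∀ c, tau c ∈ A ↔ tau (c - 1) ∈ A := by
      intro c
      have h1 := shift_tau _ hv c
      have h2 : hh ![2, 0, 0] / 2 = 1 := by simp [hh]
      rw [h2] at h1
      rw [← h1]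
      conv_lhs => rw [← hA _ hv]
      rfl
    have s1 : tau 1 ∈ A ↔ tau 0 ∈ A := by simpa using step 1
    have s2 : tau 2 ∈ A ↔ tau 1 ∈ A := by simpa using step 2
    rw [nu_apply]
    by_cases h0 : tau 0 ∈ A
    · right
      have h1 := s1.2 h0
      have h2 := s2.2 h1
      simpa [h0, h1, h2] using third
    · left
      have h1 := mt s1.1 h0
      have h2 := mt s2.1 h1
      simp [h0, h1, h2]

theorem nu_current : meanCurrent nu = fun _ => 1 / 3 := by
  funext i
  have hi : ∀ c, Integrable (fun τ : Config => ((τ.1 0 i : ℤ) : ℝ)) (Measure.dirac (tau c)) :=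
    fun c => integrable_dirac (by simp)
  rw [meanCurrent, nu, integral_smul_measure, integral_add_measure ((hi 0).add_measure (hi 1)) (hi 2),
    integral_add_measure (hi 0) (hi 1), integral_dirac, integral_dirac, integral_dirac]
  fin_cases i <;> simp [tau, tf, hh, idx, ee]

theorem no_inf (τ : Config) (C : (unionGraph τ τ).ConnectedComponent) : C.supp.Finite := by
  induction C using SimpleGraph.ConnectedComponent.ind with
  | _ x =>
    refine (Set.toFinite {x, τ.1 x}).subset fun y hy => ?_
    rw [SimpleGraph.ConnectedComponent.mem_supp_iff, SimpleGraph.ConnectedComponent.eq] at hy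
    obtain ⟨w⟩ := hy.symm
    have aux : ∀ (a b : V) (_ : (unionGraph τ τ).Walk a b), a ∈ ({x, τ.1 x} : Set V) →
        b ∈ ({x, τ.1 x} : Set V) := by
      intro a b w
      induction w with
      | nil => exact id
      | @cons a b _ h _ ih =>
        intro ha
        apply ih
        have hb : b = τ.1 a := by
          rw [unionGraph, SimpleGraph.fromRel_adj] at h
          rcases h.2 with (h | h) | (h | h)
          · exact h
          · exact h
          · rw [h, (τ.2 b).2]
          · rw [h, (τ.2 b).2]
        rcases ha with ha | ha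
        · right; rw [hb, ha]; rfl
        · left; rw [hb, ha, (τ.2 x).2]
    exact aux x y w (Or.inl rfl)

theorem main : ∃ ν : Measure Config, IsErgodicGibbs ν ∧ meanCurrent ν = (fun _ => 1 / 3) ∧
    ¬ ∀ᵐ p ∂(ν.prod ν), ∃ C : (unionGraph p.1 p.2).ConnectedComponent, C.supp.Infinite := by
  refine ⟨nu, nu_ergodic, nu_current, fun h => ?_⟩
  rw [ae_iff] at h
  have h1 : (nu.prod nu) ({tau 0} ×ˢ {tau 0}) = 0 := by
    refine measure_mono_null ?_ h
    rintro ⟨a, b⟩ ⟨ha, hb⟩
    simp only [Set.mem_singleton_iff] at ha hb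
    subst ha hb
    rintro ⟨C, hC⟩
    exact hC (no_inf _ C)
  rw [Measure.prod_prod, mul_self_eq_zero, nu_apply] at h1
  simp at h1

end Pool.Agent.H270Z.Dimer
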