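import Mathlib

set_option autoImplicit false

namespace Pool.Agent.H270Z

open Complex MeasureTheory Set Filter Topology Asymptotics

noncomputable def KK (η L : ℝ) (s : ℂ) : ℂ := Complex.exp (η * s ^ 2 + L * s)

theorem KK_diff (η L : ℝ) : Differentiable ℂ (KK η L) := by
  unfold KK; fun_prop

theorem norm_KK (η L σ t : ℝ) :
    ‖KK η L ((σ : ℂ) + (t : ℂ) * I)‖ = Real.exp (η * σ ^ 2 + L * σ) * Real.exp (-η * t ^ 2) := by
  rw [KK, Complex.norm_exp, ← Real.exp_add]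
  congr 1
  simp [pow_two]
  ring

theorem KK_quad (η L c t : ℝ) : KK η L ((c : ℂ) + (t : ℂ) * I) =
    Complex.exp ((-η : ℂ) * (t : ℂ) ^ 2 + ((2 * η * c + L) * I) * t + (η * c ^ 2 + L * c)) := by
  rw [KK]
  congr 1
  linear_combination (η * t ^ 2 : ℂ) * I_sq

theorem KK_integrable {η : ℝ} (hη : 0 < η) (L c : ℝ) :
    Integrable fun t : ℝ => KK η L ((c : ℂ) + (t : ℂ) * I) := by
  simp_rw [KK_quad]
  exact integrable_cexp_quadratic' (by simpa using hη) _ _

theorem KK_integral {η : ℝ} (hη : 0 < η) (L c : ℝ) :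
    ∫ t : ℝ, KK η L ((c : ℂ) + (t : ℂ) * I) =
      ((√(Real.pi / η) * Real.exp (-L ^ 2 / (4 * η)) : ℝ) : ℂ) := by
  simp_rw [KK_quad]
  rw [integral_cexp_quadratic (by simpa using hη)]
  have hη' : (η : ℂ) ≠ 0 := Complex.ofReal_ne_zero.2 hη.ne'
  push_cast
  congr 1
  · rw [Real.sqrt_eq_rpow, Complex.ofReal_cpow (by have := Real.pi_pos; positivity)]
    simp
  · congr 1
    field_simp
    linear_combination (2 * η * c + L : ℂ) ^ 2 * I_sq

theorem cpow_neg_eq {p : ℝ} (hp : 0 < p) (s : ℂ) :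
    (p : ℂ) ^ (-s) = Complex.exp (-(Real.log p : ℂ) * s) := by
  rw [Complex.cpow_def_of_ne_zero (Complex.ofReal_ne_zero.2 hp.ne'), ← Complex.ofReal_log hp.le]
  congr 1; ring

theorem cpow_mul_KK {p : ℝ} (hp : 0 < p) (η L : ℝ) (s : ℂ) :
    (p : ℂ) ^ (-s) * KK η L s = KK η (L - Real.log p) s := by
  rw [cpow_neg_eq hp, KK, KK, ← Complex.exp_add]
  congr 1; push_cast; ring

theorem conj_KK (η L c t : ℝ) :
    (starRingEnd ℂ) (KK η L ((c : ℂ) + (t : ℂ) * I)) = KK η L ((c : ℂ) + ((-t : ℝ) : ℂ) * I) := by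
  rw [KK, KK, ← Complex.exp_conj]
  congr 1
  simp

theorem conj_cpow_neg {p : ℝ} (hp : 0 < p) (c t : ℝ) :
    (starRingEnd ℂ) ((p : ℂ) ^ (-((c : ℂ) + (t : ℂ) * I))) =
      (p : ℂ) ^ (-((c : ℂ) + ((-t : ℝ) : ℂ) * I)) := by
  rw [cpow_neg_eq hp, cpow_neg_eq hp, ← Complex.exp_conj]
  congr 1
  simp only [map_mul, map_neg, map_add, Complex.conj_ofReal, Complex.conj_I]
  push_cast
  ring

theorem weighted_bound (φ : ℝ → ℝ) (hφ : ContinuousOn φ (Ici 1)) (hφ0 : ∀ t, 0 ≤ φ t)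
    {ε B u : ℝ} (hε1 : ε ≤ 1) (hB0 : 0 ≤ B) (hu : 1 ≤ u)
    (hB : ∀ T, u ≤ T → ∫ t in (1 : ℝ)..T, φ t ≤ B * T ^ (1 + ε)) (J : ℕ) :
    ∫ t in (1 : ℝ)..((J + 1) * u), φ t * Real.exp (-(1 / u ^ 2) * t ^ 2) ≤
      B * u ^ (1 + ε) * ∑ j ∈ Finset.range (J + 1), ((j : ℝ) + 1) ^ 2 * Real.exp (-j) := by
  have hu0 : 0 < u := by linarith
  have hint : ∀ a b : ℝ, 1 ≤ a → 1 ≤ b → IntervalIntegrable φ volume a b := by
    intro a b ha hb
    refine (hφ.mono ?_).intervalIntegrable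
    intro t ht
    exact le_trans (le_inf ha hb) ht.1
  have hint2 : ∀ a b : ℝ, 1 ≤ a → 1 ≤ b →
      IntervalIntegrable (fun t => φ t * Real.exp (-(1 / u ^ 2) * t ^ 2)) volume a b :=
    fun a b ha hb => (hint a b ha hb).mul_continuousOn (by fun_prop)
  induction J with
  | zero =>
    simp only [Nat.cast_zero, zero_add, one_mul, Finset.range_one, Finset.sum_singleton, one_pow,
      neg_zero, Real.exp_zero, mul_one]
    refine le_trans ?_ (hB u le_rfl)
    refine intervalIntegral.integral_mono_on hu (hint2 1 u le_rfl hu) (hint 1 u le_rfl hu)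
      fun t _ => ?_
    refine mul_le_of_le_one_right (hφ0 t) (Real.exp_le_one_iff.2 ?_)
    have : 0 ≤ 1 / u ^ 2 * t ^ 2 := by positivity
    linarith
  | succ J ih =>
    have hJ : (0 : ℝ) ≤ J := Nat.cast_nonneg J
    have ha : 1 ≤ ((J : ℝ) + 1) * u := by nlinarith
    have hab : ((J : ℝ) + 1) * u ≤ ((J : ℝ) + 1 + 1) * u := by nlinarith
    have hb : 1 ≤ ((J : ℝ) + 1 + 1) * u := ha.trans hab
    rw [Finset.sum_range_succ, mul_add]
    push_cast
    rw [← intervalIntegral.integral_add_adjacent_intervals (hint2 1 _ le_rfl ha) (hint2 _ _ ha hb)]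
    refine add_le_add ih ?_
    have h1 : ∫ t in ((J : ℝ) + 1) * u..((J : ℝ) + 1 + 1) * u, φ t * Real.exp (-(1 / u ^ 2) * t ^ 2)
        ≤ ∫ t in ((J : ℝ) + 1) * u..((J : ℝ) + 1 + 1) * u, φ t * Real.exp (-((J : ℝ) + 1)) := by
      refine intervalIntegral.integral_mono_on hab (hint2 _ _ ha hb)
        ((hint _ _ ha hb).mul_const _) fun t ht => ?_
      refine mul_le_mul_of_nonneg_left (Real.exp_le_exp.2 ?_) (hφ0 t)
      have h2 : (((J : ℝ) + 1) * u) ^ 2 ≤ t ^ 2 := by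
        have := ht.1
        gcongr
      have h3 : ((J : ℝ) + 1) ^ 2 ≤ 1 / u ^ 2 * t ^ 2 := by
        rw [one_div, inv_mul_eq_div, le_div_iff₀ (by positivity)]
        rw [mul_pow] at h2
        exact h2
      nlinarith
    refine h1.trans ?_
    rw [intervalIntegral.integral_mul_const]
    have h4 : ∫ t in ((J : ℝ) + 1) * u..((J : ℝ) + 1 + 1) * u, φ t ≤
        ∫ t in (1 : ℝ)..((J : ℝ) + 1 + 1) * u, φ t := by
      rw [← intervalIntegral.integral_add_adjacent_intervals (hint 1 _ le_rfl ha) (hint _ _ ha hb)]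
      have := intervalIntegral.integral_nonneg (μ := volume) ha fun t _ => hφ0 t
      linarith
    have h5 := hB (((J : ℝ) + 1 + 1) * u) (by nlinarith)
    have h6 : (((J : ℝ) + 1 + 1) * u) ^ (1 + ε) ≤ ((J : ℝ) + 1 + 1) ^ 2 * u ^ (1 + ε) := by
      rw [Real.mul_rpow (by positivity) hu0.le]
      refine mul_le_mul_of_nonneg_right ?_ (Real.rpow_nonneg hu0.le _)
      rw [← Real.rpow_two]
      exact Real.rpow_le_rpow_of_exponent_le (by linarith) (by linarith)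
    have h7 := Real.exp_pos (-((J : ℝ) + 1))
    calc _ ≤ (B * (((J : ℝ) + 1 + 1) ^ 2 * u ^ (1 + ε))) * Real.exp (-((J : ℝ) + 1)) := by
          refine mul_le_mul_of_nonneg_right (h4.trans (h5.trans ?_)) h7.le
          exact mul_le_mul_of_nonneg_left h6 hB0
      _ = _ := by ring

theorem exists_D : ∃ D : ℝ, 0 ≤ D ∧ ∀ J : ℕ,
    ∑ j ∈ Finset.range J, ((j : ℝ) + 1) ^ 2 * Real.exp (-j) ≤ D := by
  have h : Summable fun j : ℕ => ((j : ℝ) + 1) ^ 2 * Real.exp (-j) := by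
    have := ((summable_nat_add_iff 1).2
      (Real.summable_pow_mul_exp_neg_nat_mul 2 one_pos)).mul_right (Real.exp 1)
    refine this.congr fun j => ?_
    push_cast
    rw [mul_assoc, ← Real.exp_add]
    congr 2; ring
  exact ⟨_, tsum_nonneg fun j => by positivity,
    fun J => h.sum_le_tsum _ fun j _ => by positivity⟩

end Pool.Agent.H270Z
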