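import Mathlib
import Pool.Agent.H270Z.Gauss

set_option autoImplicit false

namespace Pool.Agent.H270Z

open Complex MeasureTheory Set Filter Topology Asymptotics

theorem shift_bound (F : ℂ → ℂ) (hF : DifferentiableOn ℂ F {s | 0 < s.im})
    {A : ℝ} (hA0 : 0 ≤ A) (hA : ∀ σ t : ℝ, 1 ≤ σ → σ ≤ 4 → 1 ≤ t →
      ‖F ((σ : ℂ) + (t : ℂ) * I)‖ ≤ A * Real.exp (Real.pi * t))
    {σ0 : ℝ} (h1 : 1 ≤ σ0) (h4 : σ0 ≤ 4) {η L T : ℝ} (hη : 0 < η) (hη1 : η ≤ 1) (hL : 0 ≤ L)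
    (hT : 1 ≤ T) (hT2 : Real.pi ≤ η * T) :
    ‖∫ t in (1 : ℝ)..T, F (((4 : ℝ) : ℂ) + (t : ℂ) * I) * KK η L (((4 : ℝ) : ℂ) + (t : ℂ) * I)‖ ≤
      Real.exp 16 * Real.exp (L * σ0) *
        (∫ t in (1 : ℝ)..T, ‖F ((σ0 : ℂ) + (t : ℂ) * I)‖ * Real.exp (-η * t ^ 2)) +
      6 * (A * Real.exp Real.pi * Real.exp 16 * Real.exp (L * 4)) := by
  set G : ℂ → ℂ := fun s => F s * KK η L s with hG
  have hGd : DifferentiableOn ℂ G {s | 0 < s.im} := hF.mul (KK_diff η L).differentiableOn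
  have hrect := Complex.integral_boundary_rect_eq_zero_of_differentiableOn G
    ((σ0 : ℂ) + ((1 : ℝ) : ℂ) * I) (((4 : ℝ) : ℂ) + (T : ℂ) * I) (hGd.mono (by
      intro s hs
      have := (Complex.mem_reProdIm.1 hs).2
      simp only [Complex.add_im, Complex.ofReal_im, Complex.mul_im, Complex.ofReal_re,
        Complex.I_im, Complex.I_re, mul_one, mul_zero, add_zero, zero_add] at this
      rw [uIcc_of_le hT] at this
      exact lt_of_lt_of_le one_pos this.1))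
  simp only [Complex.add_im, Complex.ofReal_im, Complex.mul_im, Complex.ofReal_re,
    Complex.I_im, Complex.I_re, mul_one, mul_zero, add_zero, zero_add, Complex.add_re,
    Complex.mul_re, sub_zero, smul_eq_mul] at hrect
  set M : ℝ := A * Real.exp Real.pi * Real.exp 16 * Real.exp (L * 4) with hM
  have hM0 : 0 ≤ M := by positivity
  have hexp : ∀ σ : ℝ, 1 ≤ σ → σ ≤ 4 →
      Real.exp (η * σ ^ 2 + L * σ) ≤ Real.exp 16 * Real.exp (L * σ) := by
    intro σ a b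
    rw [← Real.exp_add]
    apply Real.exp_le_exp.2
    have : σ ^ 2 ≤ 16 := by nlinarith
    nlinarith
  have hhor : ∀ y : ℝ, 1 ≤ y → Real.pi * y - η * y ^ 2 ≤ Real.pi →
      ‖∫ x in σ0..(4 : ℝ), G ((x : ℂ) + (y : ℂ) * I)‖ ≤ 3 * M := by
    intro y hy hy2
    have : ‖∫ x in σ0..(4 : ℝ), G ((x : ℂ) + (y : ℂ) * I)‖ ≤ M * |4 - σ0| := by
      refine intervalIntegral.norm_integral_le_of_norm_le_const fun x hx => ?_
      rw [uIoc_of_le h4] at hx
      have hx1 : 1 ≤ x := h1.trans hx.1.le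
      have e1 := hA x y hx1 hx.2 hy
      have e2 := hexp x hx1 hx.2
      have e3 : Real.exp (L * x) ≤ Real.exp (L * 4) :=
        Real.exp_le_exp.2 (mul_le_mul_of_nonneg_left hx.2 hL)
      have e4 : Real.exp (Real.pi * y) * Real.exp (-η * y ^ 2) ≤ Real.exp Real.pi := by
        rw [← Real.exp_add]; apply Real.exp_le_exp.2; linarith
      simp only [hG]
      rw [norm_mul, norm_KK]
      calc _ ≤ (A * Real.exp (Real.pi * y)) *
            ((Real.exp 16 * Real.exp (L * 4)) * Real.exp (-η * y ^ 2)) := by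
            gcongr
            exact e2.trans (mul_le_mul_of_nonneg_left e3 (Real.exp_pos _).le)
        _ = A * (Real.exp (Real.pi * y) * Real.exp (-η * y ^ 2)) * Real.exp 16 *
            Real.exp (L * 4) := by ring
        _ ≤ M := by rw [hM]; gcongr
    rw [abs_of_nonneg (by linarith)] at this
    nlinarith
  have hb := hhor 1 le_rfl (by nlinarith)
  have ht := hhor T hT (by nlinarith [Real.pi_pos])
  have hcont : ContinuousOn (fun t : ℝ => F ((σ0 : ℂ) + (t : ℂ) * I)) (Icc 1 T) := by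
    refine hF.continuousOn.comp (by fun_prop) fun t ht => ?_
    simp only [mem_ofPred_eq, Complex.add_im, Complex.ofReal_im, Complex.mul_im, Complex.ofReal_re,
      Complex.I_im, Complex.I_re, mul_one, mul_zero, add_zero, zero_add]
    exact lt_of_lt_of_le one_pos ht.1
  have hv : ‖∫ t in (1 : ℝ)..T, G ((σ0 : ℂ) + (t : ℂ) * I)‖ ≤
      Real.exp 16 * Real.exp (L * σ0) *
        (∫ t in (1 : ℝ)..T, ‖F ((σ0 : ℂ) + (t : ℂ) * I)‖ * Real.exp (-η * t ^ 2)) := by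
    rw [← intervalIntegral.integral_const_mul]
    refine intervalIntegral.norm_integral_le_of_norm_le hT (Eventually.of_forall fun t _ => ?_) ?_
    · simp only [hG]
      rw [norm_mul, norm_KK]
      have := hexp σ0 h1 h4
      calc _ ≤ ‖F ((σ0 : ℂ) + (t : ℂ) * I)‖ *
            ((Real.exp 16 * Real.exp (L * σ0)) * Real.exp (-η * t ^ 2)) := by gcongr
        _ = _ := by ring
    · refine ContinuousOn.intervalIntegrable ?_
      rw [uIcc_of_le hT]
      exact (hcont.norm.mul (by fun_prop)).const_smul (Real.exp 16 * Real.exp (L * σ0))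
  have e : I * (∫ t in (1 : ℝ)..T, G (((4 : ℝ) : ℂ) + (t : ℂ) * I)) =
      I * (∫ t in (1 : ℝ)..T, G ((σ0 : ℂ) + (t : ℂ) * I)) +
      (∫ x in σ0..(4 : ℝ), G ((x : ℂ) + (T : ℂ) * I)) -
      (∫ x in σ0..(4 : ℝ), G ((x : ℂ) + ((1 : ℝ) : ℂ) * I)) := by
    linear_combination hrect
  have e2 := congrArg norm e
  rw [norm_mul, Complex.norm_I, one_mul] at e2
  have e3 := norm_sub_le (I * (∫ t in (1 : ℝ)..T, G ((σ0 : ℂ) + (t : ℂ) * I)) +
      (∫ x in σ0..(4 : ℝ), G ((x : ℂ) + (T : ℂ) * I)))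
      (∫ x in σ0..(4 : ℝ), G ((x : ℂ) + ((1 : ℝ) : ℂ) * I))
  have e4 := norm_add_le (I * (∫ t in (1 : ℝ)..T, G ((σ0 : ℂ) + (t : ℂ) * I)))
      (∫ x in σ0..(4 : ℝ), G ((x : ℂ) + (T : ℂ) * I))
  rw [norm_mul, Complex.norm_I, one_mul] at e4
  show ‖∫ t in (1 : ℝ)..T, G (((4 : ℝ) : ℂ) + (t : ℂ) * I)‖ ≤ _
  linarith

theorem key {ι : Type} [Countable ι] (p : ι → ℝ) (hp : ∀ i, 1 ≤ p i) (F : ℂ → ℂ)
    (hF : DifferentiableOn ℂ F {s | 0 < s.im})
    (hsum : Summable fun i => 1 / p i ^ (4 : ℝ))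
    (hser : ∀ s : ℂ, s.re = 4 → HasSum (fun i => ((p i : ℝ) : ℂ) ^ (-s)) (F s))
    {A : ℝ} (hA0 : 0 ≤ A) (hA : ∀ σ t : ℝ, 1 ≤ σ → σ ≤ 4 → 1 ≤ t →
      ‖F ((σ : ℂ) + (t : ℂ) * I)‖ ≤ A * Real.exp (Real.pi * t))
    {σ0 : ℝ} (h1 : 1 ≤ σ0) (h4 : σ0 ≤ 4) {ε B T0 : ℝ} (hε1 : ε ≤ 1) (hB0 : 0 ≤ B)
    (hB : ∀ T, T0 ≤ T → ∫ t in (1 : ℝ)..T, ‖F ((σ0 : ℂ) + (t : ℂ) * I)‖ ≤ B * T ^ (1 + ε)) :
    ∃ C : ℝ, 0 ≤ C ∧ ∀ u : ℝ, 1 ≤ u → T0 ≤ u → ∀ L : ℝ, 0 ≤ L → ∀ S : Finset ι,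
      (∀ i ∈ S, |L - Real.log (p i)| ≤ 1 / u) →
      (S.card : ℝ) * u ≤ C * (Real.exp (L * 4) + Real.exp (L * σ0) * u ^ (1 + ε)) := by
  obtain ⟨D, hD0, hD⟩ := exists_D
  have hp0 : ∀ i, 0 < p i := fun i => lt_of_lt_of_le one_pos (hp i)
  set A' : ℝ := ∑' i, 1 / p i ^ (4 : ℝ) with hA'
  have hA'0 : 0 ≤ A' := tsum_nonneg fun i => by have := hp0 i; positivity
  have hre : ∀ t : ℝ, (((4 : ℝ) : ℂ) + (t : ℂ) * I).re = 4 := by intro t; simp
  have hnorm : ∀ i (t : ℝ), ‖((p i : ℝ) : ℂ) ^ (-(((4 : ℝ) : ℂ) + (t : ℂ) * I))‖ =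
      1 / p i ^ (4 : ℝ) := by
    intro i t
    rw [Complex.norm_cpow_eq_rpow_re_of_pos (hp0 i), Complex.neg_re, hre,
      Real.rpow_neg (hp0 i).le, one_div]
  have hFb : ∀ t : ℝ, ‖F (((4 : ℝ) : ℂ) + (t : ℂ) * I)‖ ≤ A' := by
    intro t
    rw [← (hser _ (hre t)).tsum_eq]
    exact tsum_of_norm_bounded hsum.hasSum fun i => (hnorm i t).le
  have hFc : Continuous fun t : ℝ => F (((4 : ℝ) : ℂ) + (t : ℂ) * I) := by
    have : (fun t : ℝ => F (((4 : ℝ) : ℂ) + (t : ℂ) * I)) =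
        fun t : ℝ => ∑' i, ((p i : ℝ) : ℂ) ^ (-(((4 : ℝ) : ℂ) + (t : ℂ) * I)) :=
      funext fun t => (hser _ (hre t)).tsum_eq.symm
    rw [this]
    refine continuous_tsum (fun i => ?_) hsum fun i t => (hnorm i t).le
    simp_rw [cpow_neg_eq (hp0 i)]
    fun_prop
  have hFconj : ∀ t : ℝ, (starRingEnd ℂ) (F (((4 : ℝ) : ℂ) + (t : ℂ) * I)) =
      F (((4 : ℝ) : ℂ) + ((-t : ℝ) : ℂ) * I) := by
    intro t
    have h := Complex.conjCLE.toContinuousLinearMap.hasSum (hser _ (hre t))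
    refine h.unique ?_
    convert! hser _ (hre (-t)) using 2 with i
    exact conj_cpow_neg (hp0 i) 4 t
  have hcont0 : ContinuousOn (fun t : ℝ => ‖F ((σ0 : ℂ) + (t : ℂ) * I)‖) (Ici 1) := by
    refine (hF.continuousOn.comp (by fun_prop) fun t ht => ?_).norm
    simp only [mem_ofPred_eq, Complex.add_im, Complex.ofReal_im, Complex.mul_im, Complex.ofReal_re,
      Complex.I_im, Complex.I_re, mul_one, mul_zero, add_zero, zero_add]
    exact lt_of_lt_of_le one_pos ht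
  set C1 : ℝ := 2 * (Real.exp 16 * (B * D)) with hC1
  set C2 : ℝ := 12 * (A * Real.exp Real.pi * Real.exp 16) + 2 * (A' * Real.exp 16) with hC2
  have hC10 : 0 ≤ C1 := by positivity
  have hC20 : 0 ≤ C2 := by positivity
  refine ⟨Real.exp 1 * (C1 + C2), by positivity, fun u hu hTu L hL S hS => ?_⟩
  have hu0 : 0 < u := by linarith
  set η : ℝ := 1 / u ^ 2 with hηdef
  have hη : 0 < η := by positivity
  have hη1 : η ≤ 1 := by
    rw [hηdef, div_le_one (by positivity)]; nlinarith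
  set f : ℝ → ℂ := fun t =>
    F (((4 : ℝ) : ℂ) + (t : ℂ) * I) * KK η L (((4 : ℝ) : ℂ) + (t : ℂ) * I) with hf
  have hfint : Integrable f :=
    (KK_integrable hη L 4).bdd_mul hFc.aestronglyMeasurable (Eventually.of_forall hFb)
  -- the series side
  have hH : HasSum (fun i => ((√(Real.pi / η) *
      Real.exp (-(L - Real.log (p i)) ^ 2 / (4 * η)) : ℝ) : ℂ)) (∫ t, f t) := by
    have hi : ∀ i, Integrable fun t : ℝ => ((p i : ℝ) : ℂ) ^ (-(((4 : ℝ) : ℂ) + (t : ℂ) * I)) *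
        KK η L (((4 : ℝ) : ℂ) + (t : ℂ) * I) := by
      intro i
      simp_rw [cpow_mul_KK (hp0 i)]
      exact KK_integrable hη _ 4
    have hs : Summable fun i => ∫ t : ℝ, ‖((p i : ℝ) : ℂ) ^ (-(((4 : ℝ) : ℂ) + (t : ℂ) * I)) *
        KK η L (((4 : ℝ) : ℂ) + (t : ℂ) * I)‖ := by
      simp_rw [norm_mul, hnorm, integral_const_mul]
      exact hsum.mul_right _
    have H := hasSum_integral_of_summable_integral_norm hi hs
    convert! H using 2 with i t
    · simp_rw [cpow_mul_KK (hp0 i)]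
      exact (KK_integral hη _ 4).symm
    · funext t
      exact ((hser _ (hre t)).mul_right _).tsum_eq.symm
  have hH2 := Complex.reCLM.hasSum hH
  simp only [Complex.reCLM_apply, Complex.ofReal_re] at hH2
  have hlow : (S.card : ℝ) * (u * Real.exp (-1)) ≤ ‖∫ t, f t‖ := by
    have e1 : u ≤ √(Real.pi / η) := by
      apply Real.le_sqrt_of_sq_le
      rw [hηdef, div_div_eq_mul_div, div_one]
      nlinarith [Real.pi_gt_three]
    have e2 := sum_le_hasSum S (fun i _ => by positivity) hH2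
    have e3 : (S.card : ℝ) * (u * Real.exp (-1)) ≤ ∑ i ∈ S, √(Real.pi / η) *
        Real.exp (-(L - Real.log (p i)) ^ 2 / (4 * η)) := by
      rw [← nsmul_eq_mul]
      refine Finset.card_nsmul_le_sum S _ _ fun i hi => ?_
      refine mul_le_mul e1 (Real.exp_le_exp.2 ?_) (Real.exp_pos _).le (Real.sqrt_nonneg _)
      rw [le_div_iff₀ (by positivity)]
      have e4 : (L - Real.log (p i)) ^ 2 ≤ η := by
        rw [← sq_abs, hηdef, ← one_div_pow]
        have := hS i hi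
        gcongr
      linarith
    exact e3.trans (e2.trans (Complex.re_le_norm _))
  -- the upper bound
  have hIoi : ‖∫ t in Ioi (1 : ℝ), f t‖ ≤
      Real.exp 16 * Real.exp (L * σ0) * (B * u ^ (1 + ε) * D) +
      6 * (A * Real.exp Real.pi * Real.exp 16 * Real.exp (L * 4)) := by
    have hT : Tendsto (fun J : ℕ => ((J : ℝ) + 1) * u) atTop atTop :=
      (tendsto_atTop_add_const_right _ 1 tendsto_natCast_atTop_atTop).atTop_mul_const hu0
    refine le_of_tendsto (intervalIntegral_tendsto_integral_Ioi 1 hfint.integrableOn hT).norm ?_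
    filter_upwards [hT.eventually_ge_atTop 1, hT.eventually_ge_atTop (Real.pi / η)] with J a b
    rw [div_le_iff₀' hη] at b
    refine (shift_bound F hF hA0 hA h1 h4 hη hη1 hL a b).trans ?_
    have w := weighted_bound _ hcont0 (fun t => norm_nonneg _) hε1 hB0 hu
      (fun T hT => hB T (hTu.trans hT)) J
    have w2 := w.trans (mul_le_mul_of_nonneg_left (hD (J + 1))
      (mul_nonneg hB0 (Real.rpow_nonneg hu0.le _)))
    gcongr
  have hIic : ‖∫ t in Iic (-1 : ℝ), f t‖ = ‖∫ t in Ioi (1 : ℝ), f t‖ := by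
    have e : ∀ t : ℝ, f t = (starRingEnd ℂ) (f (-t)) := by
      intro t
      simp only [hf]
      rw [map_mul, hFconj, conj_KK, neg_neg]
    have e2 : ∫ t in Iic (-1 : ℝ), f t = (starRingEnd ℂ) (∫ t in Iic (-1 : ℝ), f (-t)) := by
      rw [← integral_conj]
      exact integral_congr_ae (Eventually.of_forall fun t => e t)
    rw [e2, integral_comp_neg_Iic, neg_neg, Complex.norm_conj]
  have hmid : ‖∫ t in (-1 : ℝ)..1, f t‖ ≤ 2 * (A' * Real.exp 16 * Real.exp (L * 4)) := by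
    have : ‖∫ t in (-1 : ℝ)..1, f t‖ ≤ (A' * Real.exp 16 * Real.exp (L * 4)) * |1 - (-1)| := by
      refine intervalIntegral.norm_integral_le_of_norm_le_const fun t _ => ?_
      simp only [hf]
      rw [norm_mul, norm_KK, mul_assoc, ← Real.exp_add, ← Real.exp_add]
      refine mul_le_mul (hFb t) (Real.exp_le_exp.2 ?_) (Real.exp_pos _).le hA'0
      have : 0 ≤ η * t ^ 2 := by positivity
      nlinarith
    norm_num at this
    linarith
  have hsplit : ∫ t, f t = (∫ t in Iic (-1 : ℝ), f t) + (∫ t in (-1 : ℝ)..1, f t) +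
      ∫ t in Ioi (1 : ℝ), f t := by
    rw [← intervalIntegral.integral_Iic_add_Ioi (b := 1) hfint.integrableOn hfint.integrableOn,
      ← intervalIntegral.integral_Iic_sub_Iic hfint.integrableOn hfint.integrableOn]
    ring
  have hup : ‖∫ t, f t‖ ≤ C1 * (Real.exp (L * σ0) * u ^ (1 + ε)) + C2 * Real.exp (L * 4) := by
    rw [hsplit]
    have := norm_add₃_le (a := ∫ t in Iic (-1 : ℝ), f t) (b := ∫ t in (-1 : ℝ)..1, f t)
      (c := ∫ t in Ioi (1 : ℝ), f t)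
    rw [hIic] at this
    rw [hC1, hC2]
    nlinarith
  have hX : 0 ≤ Real.exp (L * σ0) * u ^ (1 + ε) :=
    mul_nonneg (Real.exp_pos _).le (Real.rpow_nonneg hu0.le _)
  have hY := (Real.exp_pos (L * 4)).le
  have e5 : (S.card : ℝ) * u = Real.exp 1 * ((S.card : ℝ) * (u * Real.exp (-1))) := by
    rw [Real.exp_neg]; field_simp
  rw [e5, mul_assoc]
  refine mul_le_mul_of_nonneg_left (hlow.trans (hup.trans ?_)) (Real.exp_pos 1).le
  nlinarith [mul_nonneg hC10 hY, mul_nonneg hC20 hX]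

end Pool.Agent.H270Z
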