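import Mathlib
import Pool.Agent.H270Z.Barnes
import Pool.Agent.H270Z.Key

set_option autoImplicit false

namespace Pool.Agent.H270Z

open Complex MeasureTheory Set Filter Topology Asymptotics

theorem abs_log_sub_le {x y : ℝ} (hx : 1 ≤ x) (hy : 1 ≤ y) :
    |Real.log x - Real.log y| ≤ |x - y| := by
  have aux : ∀ x y : ℝ, 1 ≤ y → y ≤ x → |Real.log x - Real.log y| ≤ |x - y| := by
    intro x y hy hxy
    have hy0 : 0 < y := by linarith
    have hx0 : 0 < x := by linarith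
    rw [abs_of_nonneg (sub_nonneg.2 (Real.log_le_log hy0 hxy)), abs_of_nonneg (sub_nonneg.2 hxy),
      ← Real.log_div hx0.ne' hy0.ne']
    refine (Real.log_le_sub_one_of_pos (by positivity)).trans ?_
    rw [div_sub_one hy0.ne']
    exact div_le_self (sub_nonneg.2 hxy) hy
  rcases le_total y x with h | h
  · exact aux x y hy h
  · rw [abs_sub_comm, abs_sub_comm x]; exact aux y x hx h

theorem le_of_sq_le_sq_aux {a b : ℝ} (h : a ^ 2 ≤ b ^ 2) (hb : 0 ≤ b) : a ≤ b :=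
  (abs_le_of_sq_le_sq' h hb).2

theorem finrank_pows {α : ℝ} (hα : Liouville α) :
    Module.finrank ℚ (Submodule.span ℚ (Set.range ![(1 : ℝ), α, α ^ 2])) = 3 := by
  have ht : Transcendental ℚ α := fun h =>
    hα.transcendental ((IsFractionRing.isAlgebraic_iff ℤ ℚ ℝ).2 h)
  have hli : LinearIndependent ℚ ![(1 : ℝ), α, α ^ 2] := by
    rw [Fintype.linearIndependent_iff]
    intro g hg
    have h0 : Polynomial.aeval α (Polynomial.C (g 0) + Polynomial.C (g 1) * Polynomial.X +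
        Polynomial.C (g 2) * Polynomial.X ^ 2) = 0 := by
      simpa [Fin.sum_univ_three, Algebra.smul_def] using hg
    have h1 := transcendental_iff.1 ht _ h0
    have c0 := congrArg (fun P => Polynomial.coeff P 0) h1
    have c1 := congrArg (fun P => Polynomial.coeff P 1) h1
    have c2 := congrArg (fun P => Polynomial.coeff P 2) h1
    simp [Polynomial.coeff_X, Polynomial.coeff_C] at c0 c1 c2
    intro i
    fin_cases i <;> simpa
  simpa using finrank_span_eq_card hli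

theorem core {α : ℝ} (hα : Liouville α) (h1 : 1 < α) (h2 : α < 2) :
    ∃ F : ℂ → ℂ, DifferentiableOn ℂ F {s : ℂ | ∀ k : ℕ, 1 ≤ k → k ≤ 3 → s ≠ (k : ℂ)} ∧
      (∀ s : ℂ, ((3 : ℕ) : ℝ) < s.re → F s = ∑' m : Fin 3 → ℕ,
        (((1 + ∑ j, (m j : ℝ) * ![(1 : ℝ), α, α ^ 2] j : ℝ) : ℂ) ^ (-s))) ∧
      ∀ B T0 : ℝ, ¬ ∀ T, T0 ≤ T →
        ∫ t in (1 : ℝ)..T, ‖F (((3 / 2 : ℝ) : ℂ) + (t : ℂ) * I)‖ ≤ B * T ^ (1 + (1 / 24 : ℝ)) := by
  set w : Fin 3 → ℝ := ![(1 : ℝ), α, α ^ 2] with hw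
  have hwpos : ∀ j, 0 < w j := by
    intro j
    fin_cases j <;> simp [hw] <;> positivity
  obtain ⟨F, hF, hser, A, hA0, hA⟩ := barnes_cont (r := 3) (by norm_num) one_pos hwpos
  refine ⟨F, hF, fun s hs => (hser s hs).tsum_eq.symm, fun B T0 hB => ?_⟩
  have hp1 : ∀ m : Fin 3 → ℕ, 1 ≤ 1 + ∑ j, (m j : ℝ) * w j := by
    intro m
    have : 0 ≤ ∑ j, (m j : ℝ) * w j := Finset.sum_nonneg fun j _ => by
      have := hwpos j; positivity
    linarith
  have hF' : DifferentiableOn ℂ F {s | 0 < s.im} := by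
    refine hF.mono fun s hs k _ _ h => ?_
    have : 0 < s.im := hs
    rw [h] at this
    simp at this
  have hB' : ∀ T, max T0 1 ≤ T → ∫ t in (1 : ℝ)..T, ‖F (((3 / 2 : ℝ) : ℂ) + (t : ℂ) * I)‖ ≤
      |B| * T ^ (1 + (1 / 24 : ℝ)) := by
    intro T hT
    refine (hB T ((le_max_left _ _).trans hT)).trans ?_
    have : 0 ≤ T := by linarith [le_max_right T0 1]
    exact mul_le_mul_of_nonneg_right (le_abs_self B) (Real.rpow_nonneg this _)
  obtain ⟨C, hC0, hC⟩ := key (fun m : Fin 3 → ℕ => 1 + ∑ j, (m j : ℝ) * w j) hp1 F hF'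
    (barnes_summable (r := 3) (by norm_num) one_pos hwpos (by norm_num))
    (fun s hs => hser s (by rw [hs]; norm_num)) hA0 hA (σ0 := 3 / 2) (by norm_num) (by norm_num)
    (ε := 1 / 24) (by norm_num) (abs_nonneg B) hB'
  have hev : ∀ᶠ q : ℕ in atTop, max (max T0 3) (2428 * C + 1) ≤ (q : ℝ) :=
    tendsto_natCast_atTop_atTop.eventually_ge_atTop _
  obtain ⟨q, ⟨P, -, hP⟩, hq⟩ := ((hα.frequently_exists_num 33).and_eventually hev).exists
  have hq3 : (3 : ℝ) ≤ q := ((le_max_right _ _).trans (le_max_left _ _)).trans hq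
  have hqT : T0 ≤ q := ((le_max_left _ _).trans (le_max_left _ _)).trans hq
  have hqC : 2428 * C + 1 ≤ q := (le_max_right _ _).trans hq
  have hq0 : (0 : ℝ) < q := by linarith
  have hq1 : (1 : ℝ) ≤ q := by linarith
  have hqn : 0 < q := by exact_mod_cast hq0
  have hPpos : (0 : ℝ) < P := by
    have a1 : 1 / (q : ℝ) ^ 33 ≤ 1 := by
      rw [div_le_one (by positivity)]; exact one_le_pow₀ hq1
    have a2 := (abs_lt.1 hP).2
    have a3 : 0 < (P : ℝ) / q := by linarith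
    exact (div_pos_iff_of_pos_right hq0).1 a3
  lift P to ℕ using (by exact_mod_cast hPpos.le) with p
  have hpn : 0 < p := by exact_mod_cast hPpos
  rw [Int.cast_natCast] at hP
  have hd : |(p : ℝ) - q * α| ≤ 1 / (q : ℝ) ^ 32 := by
    have : (p : ℝ) - q * α = -(q * (α - p / q)) := by field_simp; ring
    rw [this, abs_neg, abs_mul, abs_of_pos hq0]
    calc (q : ℝ) * |α - p / q| ≤ q * (1 / (q : ℝ) ^ 33) := by gcongr
      _ = _ := by field_simp
  set N : ℕ := q ^ 7 with hN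
  set x0 : ℝ := 1 + N * q * (α + α ^ 2) with hx0
  have hNr : (N : ℝ) = (q : ℝ) ^ 7 := by rw [hN]; push_cast; ring
  have hx1 : 1 ≤ x0 := by
    have : 0 ≤ (N : ℝ) * q * (α + α ^ 2) := by positivity
    linarith
  have hx7 : x0 ≤ 7 * (q : ℝ) ^ 8 := by
    have a1 : (1 : ℝ) ≤ (q : ℝ) ^ 8 := one_le_pow₀ hq1
    have a2 : α + α ^ 2 ≤ 6 := by nlinarith
    have a3 : (N : ℝ) * q = (q : ℝ) ^ 8 := by rw [hNr]; ring
    rw [hx0, a3]
    nlinarith
  set e : ℕ × ℕ → (Fin 3 → ℕ) := fun ij => ![ij.1 * p, (N - ij.1) * q + ij.2 * p, (N - ij.2) * q]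
    with he
  have hinj : Set.InjOn e (Finset.range N ×ˢ Finset.range N : Finset (ℕ × ℕ)) := by
    rintro ⟨i, j⟩ hij ⟨i', j'⟩ hij' h
    simp only [Finset.coe_product, Finset.coe_range, mem_prod, mem_Iio] at hij hij'
    have c0 := congrFun h 0
    have c2 := congrFun h 2
    simp only [he, Matrix.cons_val_zero, Matrix.cons_val] at c0 c2
    have d0 := Nat.eq_of_mul_eq_mul_right hpn c0
    have d2 := Nat.eq_of_mul_eq_mul_right hqn c2
    ext
    · exact d0
    · simp only; omega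
  have hcard : (((Finset.range N ×ˢ Finset.range N).image e).card : ℝ) = (q : ℝ) ^ 14 := by
    rw [Finset.card_image_of_injOn hinj, Finset.card_product, Finset.card_range]
    push_cast
    rw [hNr]; ring
  have hu1 : (1 : ℝ) ≤ (q : ℝ) ^ 24 := one_le_pow₀ hq1
  have huq : (q : ℝ) ≤ (q : ℝ) ^ 24 := le_self_pow₀ hq1 (by norm_num)
  have H := hC ((q : ℝ) ^ 24) hu1 (max_le (hqT.trans huq) hu1) (Real.log x0) (Real.log_nonneg hx1)
    ((Finset.range N ×ˢ Finset.range N).image e) (by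
      intro m hm
      obtain ⟨⟨i, j⟩, hij, rfl⟩ := Finset.mem_image.1 hm
      simp only [Finset.mem_product, Finset.mem_range] at hij
      refine (abs_log_sub_le hx1 (hp1 _)).trans ?_
      have a1 : x0 - (1 + ∑ k, ((e (i, j) k : ℕ) : ℝ) * w k) = -((i + j * α) * (p - q * α)) := by
        simp only [Fin.sum_univ_three, he, hw, hx0, Matrix.cons_val_zero, Matrix.cons_val_one,
          Matrix.cons_val]
        push_cast [Nat.cast_sub hij.1.le, Nat.cast_sub hij.2.le]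
        ring
      have hi : (i : ℝ) ≤ N := by exact_mod_cast hij.1.le
      have hj : (j : ℝ) ≤ N := by exact_mod_cast hij.2.le
      have hj0 : (0 : ℝ) ≤ j := Nat.cast_nonneg j
      have a2 : (i : ℝ) + j * α ≤ (q : ℝ) ^ 8 := by
        have : (q : ℝ) ^ 8 = q * N := by rw [hNr]; ring
        nlinarith
      rw [a1, abs_neg, abs_mul, abs_of_nonneg (by positivity)]
      calc ((i : ℝ) + j * α) * |(p : ℝ) - q * α| ≤ (q : ℝ) ^ 8 * (1 / (q : ℝ) ^ 32) := by gcongr
        _ = _ := by field_simp)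
  rw [hcard] at H
  have b1 : Real.exp (Real.log x0 * 4) ≤ 2401 * (q : ℝ) ^ 37 := by
    have : Real.exp (Real.log x0 * 4) = x0 ^ 4 := by
      rw [mul_comm, show (4 : ℝ) = ((4 : ℕ) : ℝ) by norm_num, Real.exp_nat_mul,
        Real.exp_log (by linarith)]
    rw [this]
    calc x0 ^ 4 ≤ (7 * (q : ℝ) ^ 8) ^ 4 := by gcongr
      _ = 2401 * (q : ℝ) ^ 32 := by ring
      _ ≤ _ := by gcongr; norm_num
  have b2 : Real.exp (Real.log x0 * (3 / 2)) ≤ 27 * (q : ℝ) ^ 12 := by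
    have c1 : Real.exp (Real.log x0 * (3 / 2)) = Real.exp (Real.log x0 / 2) ^ 3 := by
      rw [← Real.exp_nat_mul]; congr 1; push_cast; ring
    have c2 : Real.exp (Real.log x0 / 2) ^ 2 = x0 := by
      rw [← Real.exp_nat_mul]
      have : ((2 : ℕ) : ℝ) * (Real.log x0 / 2) = Real.log x0 := by push_cast; ring
      rw [this, Real.exp_log (by linarith)]
    have c3 : Real.exp (Real.log x0 / 2) ≤ 3 * (q : ℝ) ^ 4 := by
      refine le_of_sq_le_sq_aux ?_ (by positivity)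
      rw [c2]
      have : (0 : ℝ) ≤ (q : ℝ) ^ 8 := by positivity
      nlinarith
    rw [c1]
    calc _ ≤ (3 * (q : ℝ) ^ 4) ^ 3 := by gcongr
      _ = _ := by ring
  have b3 : ((q : ℝ) ^ 24) ^ (1 + (1 / 24 : ℝ)) = (q : ℝ) ^ 25 := by
    rw [← Real.rpow_natCast, ← Real.rpow_mul hq0.le, ← Real.rpow_natCast]
    norm_num
  rw [b3] at H
  have b4 : (q : ℝ) ^ 14 * (q : ℝ) ^ 24 ≤ C * (2428 * (q : ℝ) ^ 37) := by
    refine H.trans (mul_le_mul_of_nonneg_left ?_ hC0)
    have : Real.exp (Real.log x0 * (3 / 2)) * (q : ℝ) ^ 25 ≤ 27 * (q : ℝ) ^ 12 * (q : ℝ) ^ 25 := by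
      gcongr
    nlinarith
  have b5 : (0 : ℝ) < (q : ℝ) ^ 37 := by positivity
  have b6 : (q : ℝ) ^ 14 * (q : ℝ) ^ 24 = q * (q : ℝ) ^ 37 := by ring
  rw [b6] at b4
  nlinarith

end Pool.Agent.H270Z
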