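import Mathlib
import Pool.Agent.H270Z.Main

set_option autoImplicit false

namespace Pool.Agent.H270Z

open Complex MeasureTheory Set Filter Topology Asymptotics

theorem exists_liouville : ∃ α : ℝ, Liouville α ∧ 1 < α ∧ α < 2 := by
  obtain ⟨α, h1, h2⟩ := dense_liouville.exists_mem_open isOpen_Ioo
    (nonempty_Ioo.2 (by norm_num : (1 : ℝ) < 2))
  exact ⟨α, h1, h2.1, h2.2⟩

theorem pows_pos {α : ℝ} (h1 : 1 < α) : ∀ j, 0 < ![(1 : ℝ), α, α ^ 2] j := by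
  intro j
  fin_cases j <;> simp <;> positivity

theorem line_cont {F : ℂ → ℂ} {r : ℕ}
    (hF : DifferentiableOn ℂ F {s : ℂ | ∀ k : ℕ, 1 ≤ k → k ≤ r → s ≠ (k : ℂ)}) (σ : ℝ) {T : ℝ}
    (hT : 1 ≤ T) : ContinuousOn (fun t : ℝ => ‖F ((σ : ℂ) + (t : ℂ) * I)‖) (uIcc 1 T) := by
  rw [uIcc_of_le hT]
  refine (hF.continuousOn.comp (by fun_prop) fun t ht k _ _ h => ?_).norm
  have := congrArg Complex.im h
  simp at this
  linarith [ht.1]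

theorem moments_false :
    ∃ (r : ℕ) (a : ℝ) (w : Fin r → ℝ) (F : ℂ → ℂ), 1 ≤ r ∧ 0 < a ∧ (∀ j, 0 < w j) ∧
      DifferentiableOn ℂ F {s : ℂ | ∀ n : ℕ, 1 ≤ n → n ≤ r → s ≠ (n : ℂ)} ∧
      (∀ s : ℂ, (r : ℝ) < s.re →
        F s = ∑' m : Fin r → ℕ, (((a + ∑ j, (m j : ℝ) * w j : ℝ) : ℂ) ^ (-s))) ∧
      ∃ ε : ℝ, 0 < ε ∧ ∃ σ : ℝ,
        (r : ℝ) - (Module.finrank ℚ (Submodule.span ℚ (Set.range w)) : ℝ) / 2 ≤ σ ∧
        ∀ k : ℕ, 1 ≤ k →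
          ¬ (fun T : ℝ => ∫ t in (1 : ℝ)..T, ‖F ((σ : ℂ) + (t : ℂ) * Complex.I)‖ ^ (2 * k))
            =O[Filter.atTop] (fun T : ℝ => T ^ (1 + ε)) := by
  obtain ⟨α, hα, h1, h2⟩ := exists_liouville
  obtain ⟨F, hF, hser, hno⟩ := core hα h1 h2
  refine ⟨3, 1, ![(1 : ℝ), α, α ^ 2], F, by norm_num, one_pos, pows_pos h1, hF, hser,
    1 / 24, by norm_num, 3 / 2, ?_, fun k hk hO => ?_⟩
  · rw [finrank_pows hα]; norm_num
  obtain ⟨B, hB⟩ := hO.bound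
  obtain ⟨T0, hT0⟩ := eventually_atTop.1 hB
  refine hno (1 + B) (max T0 1) fun T hT => ?_
  have hT1 : 1 ≤ T := (le_max_right _ _).trans hT
  have hc := line_cont hF (3 / 2) hT1
  have a1 := hT0 T ((le_max_left _ _).trans hT)
  have hpos : 0 ≤ T ^ (1 + (1 / 24 : ℝ)) := Real.rpow_nonneg (by linarith) _
  rw [Real.norm_eq_abs, Real.norm_eq_abs, abs_of_nonneg hpos] at a1
  have a2 := (le_abs_self _).trans a1
  have a3 : ∫ t in (1 : ℝ)..T, ‖F (((3 / 2 : ℝ) : ℂ) + (t : ℂ) * I)‖ ≤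
      ∫ t in (1 : ℝ)..T, (1 + ‖F (((3 / 2 : ℝ) : ℂ) + (t : ℂ) * I)‖ ^ (2 * k)) := by
    refine intervalIntegral.integral_mono_on hT1 hc.intervalIntegrable
      ((continuousOn_const.add (hc.pow _)).intervalIntegrable) fun t _ => ?_
    set x := ‖F (((3 / 2 : ℝ) : ℂ) + (t : ℂ) * I)‖ with hx
    have hx0 : 0 ≤ x := norm_nonneg _
    rcases le_total x 1 with h | h
    · have : 0 ≤ x ^ (2 * k) := by positivity
      linarith
    · have : x ≤ x ^ (2 * k) := le_self_pow₀ h (by omega)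
      linarith
  have hc2 : ContinuousOn (fun t : ℝ => ‖F (((3 / 2 : ℝ) : ℂ) + (t : ℂ) * I)‖ ^ (2 * k))
      (uIcc 1 T) := hc.pow _
  rw [intervalIntegral.integral_add (by simp) hc2.intervalIntegrable] at a3
  simp only [intervalIntegral.integral_const, smul_eq_mul, mul_one] at a3
  have a4 : T ≤ T ^ (1 + (1 / 24 : ℝ)) := by
    have := Real.rpow_le_rpow_of_exponent_le hT1 (by norm_num : (1 : ℝ) ≤ 1 + 1 / 24)
    rwa [Real.rpow_one] at this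
  linarith

theorem lindelof_false :
    ¬ (∀ (r : ℕ), 1 ≤ r → ∀ (a : ℝ), 0 < a → ∀ (w : Fin r → ℝ), (∀ j, 0 < w j) →
      ∀ F : ℂ → ℂ,
        DifferentiableOn ℂ F {s : ℂ | ∀ k : ℕ, 1 ≤ k → k ≤ r → s ≠ (k : ℂ)} →
        (∀ s : ℂ, (r : ℝ) < s.re →
          F s = ∑' m : Fin r → ℕ, (((a + ∑ j, (m j : ℝ) * w j : ℝ) : ℂ) ^ (-s))) →
        ∀ ε : ℝ, 0 < ε → ∀ σ₁ : ℝ, ∃ C : ℝ, ∀ σ t : ℝ,
          (r : ℝ) - (Module.finrank ℚ (Submodule.span ℚ (Set.range w)) : ℝ) / 2 ≤ σ →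
          σ ≤ σ₁ → 1 ≤ t →
          ‖F ((σ : ℂ) + (t : ℂ) * Complex.I)‖ ≤ C * t ^ ε) := by
  intro H
  obtain ⟨α, hα, h1, h2⟩ := exists_liouville
  obtain ⟨F, hF, hser, hno⟩ := core hα h1 h2
  obtain ⟨C, hC⟩ := H 3 (by norm_num) 1 one_pos ![(1 : ℝ), α, α ^ 2] (pows_pos h1) F hF hser
    (1 / 24) (by norm_num) (3 / 2)
  refine hno |C| 1 fun T hT => ?_
  have hT0 : 0 < T := by linarith
  have a1 : ‖∫ t in (1 : ℝ)..T, ‖F (((3 / 2 : ℝ) : ℂ) + (t : ℂ) * I)‖‖ ≤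
      (|C| * T ^ (1 / 24 : ℝ)) * |T - 1| := by
    refine intervalIntegral.norm_integral_le_of_norm_le_const fun t ht => ?_
    rw [uIoc_of_le hT] at ht
    have ht0 : 0 ≤ t := by linarith [ht.1]
    rw [norm_norm]
    refine (hC (3 / 2) t (by rw [finrank_pows hα]; norm_num) le_rfl ht.1.le).trans ?_
    exact mul_le_mul (le_abs_self C) (Real.rpow_le_rpow ht0 ht.2 (by norm_num))
      (Real.rpow_nonneg ht0 _) (abs_nonneg C)
  rw [Real.norm_eq_abs, abs_of_nonneg (sub_nonneg.2 hT)] at a1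
  refine (le_abs_self _).trans (a1.trans ?_)
  rw [Real.rpow_add hT0, Real.rpow_one]
  have := mul_nonneg (abs_nonneg C) (Real.rpow_nonneg hT0.le (1 / 24 : ℝ))
  nlinarith

end Pool.Agent.H270Z
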