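import Mathlib
import Pool.Agent.H270Z.Final

set_option autoImplicit false

namespace Pool.Agent.H270Z

open Complex MeasureTheory Set Filter Topology Asymptotics

theorem lindelof_false2 :
    ∃ (r : ℕ) (a : ℝ) (w : Fin r → ℝ) (F : ℂ → ℂ), 1 ≤ r ∧ 0 < a ∧ (∀ j, 0 < w j) ∧
      DifferentiableOn ℂ F {s : ℂ | ∀ n : ℕ, 1 ≤ n → n ≤ r → s ≠ (n : ℂ)} ∧
      (∀ s : ℂ, (r : ℝ) < s.re →
        F s = ∑' m : Fin r → ℕ, (((a + ∑ j, (m j : ℝ) * w j : ℝ) : ℂ) ^ (-s))) ∧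
      ∃ ε : ℝ, 0 < ε ∧ ∃ σ : ℝ,
        (r : ℝ) - (Module.finrank ℚ (Submodule.span ℚ (Set.range w)) : ℝ) / 2 ≤ σ ∧
        ¬ ∃ C : ℝ, ∀ t : ℝ, 2 ≤ t → ‖F ((σ : ℂ) + (t : ℂ) * Complex.I)‖ ≤ C * t ^ ε := by
  obtain ⟨α, hα, h1, h2⟩ := exists_liouville
  obtain ⟨F, hF, hser, hno⟩ := core hα h1 h2
  refine ⟨3, 1, ![(1 : ℝ), α, α ^ 2], F, by norm_num, one_pos, pows_pos h1, hF, hser,
    1 / 24, by norm_num, 3 / 2, ?_, ?_⟩
  · rw [finrank_pows hα]; norm_num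
  rintro ⟨C, hC⟩
  have hc := line_cont hF (3 / 2) (T := 2) (by norm_num)
  obtain ⟨M, hM⟩ := isCompact_uIcc.exists_bound_of_continuousOn hc
  have hall : ∀ t : ℝ, 1 ≤ t →
      ‖F (((3 / 2 : ℝ) : ℂ) + (t : ℂ) * I)‖ ≤ (|C| + |M|) * t ^ (1 / 24 : ℝ) := by
    intro t ht
    have h0 : 1 ≤ t ^ (1 / 24 : ℝ) := Real.one_le_rpow ht (by norm_num)
    have a1 := abs_nonneg C
    have a2 := abs_nonneg M
    rcases le_total 2 t with h | h
    · have := hC t h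
      have a3 := le_abs_self C
      nlinarith
    · have := hM t (by rw [uIcc_of_le (by norm_num)]; exact ⟨ht, h⟩)
      rw [norm_norm] at this
      have a3 := le_abs_self M
      nlinarith
  refine hno (|C| + |M|) 1 fun T hT => ?_
  have hT0 : 0 < T := by linarith
  have hCM : 0 ≤ |C| + |M| := by positivity
  have a1 : ‖∫ t in (1 : ℝ)..T, ‖F (((3 / 2 : ℝ) : ℂ) + (t : ℂ) * I)‖‖ ≤
      ((|C| + |M|) * T ^ (1 / 24 : ℝ)) * |T - 1| := by
    refine intervalIntegral.norm_integral_le_of_norm_le_const fun t ht => ?_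
    rw [uIoc_of_le hT] at ht
    have ht0 : 0 ≤ t := by linarith [ht.1]
    rw [norm_norm]
    refine (hall t ht.1.le).trans ?_
    exact mul_le_mul_of_nonneg_left (Real.rpow_le_rpow ht0 ht.2 (by norm_num)) hCM
  rw [Real.norm_eq_abs, abs_of_nonneg (sub_nonneg.2 hT)] at a1
  refine (le_abs_self _).trans (a1.trans ?_)
  rw [Real.rpow_add hT0, Real.rpow_one]
  have := mul_nonneg hCM (Real.rpow_nonneg hT0.le (1 / 24 : ℝ))
  nlinarith

end Pool.Agent.H270Z
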