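import Mathlib

set_option autoImplicit false

namespace Pool.Agent.H270Z.Game

open Filter Topology

/-- reachability value for an averaging operator -/
structure Spec {S : Type} (E : (S → ℝ) → S → ℝ) (T : Set S) (V : S → ℝ) : Prop where
  mem : ∀ s, s ∈ T → V s = 1
  nmem : ∀ s, s ∉ T → V s = E V s
  nonneg : ∀ s, 0 ≤ V s
  le_one : ∀ s, V s ≤ 1
  least : ∀ W : S → ℝ, (∀ s, 0 ≤ W s) → (∀ s, s ∈ T → 1 ≤ W s) → (∀ s, s ∉ T → E W s ≤ W s) →
    ∀ s, V s ≤ W s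

theorem spec_iSup {S : Type} (E : (S → ℝ) → S → ℝ) (T : Set S) (v0 : S → ℝ)
    (hmono : Monotone E) (hcont : Continuous E) (hE1 : ∀ s, E 1 s ≤ 1) (hE0 : ∀ s, 0 ≤ E 0 s)
    (h0 : ∀ s, 0 ≤ v0 s) (h1 : v0 ≤ T.indicator (fun _ => (1 : ℝ))) :
    Spec E T (fun s => ⨆ n : ℕ, ((fun v : S → ℝ =>
      T.indicator (fun _ => (1 : ℝ)) + Tᶜ.indicator (E v))^[n] v0) s) := by
  set Φ : (S → ℝ) → (S → ℝ) := fun v => T.indicator (fun _ => (1 : ℝ)) + Tᶜ.indicator (E v)
    with hΦ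
  have hT : ∀ v s, s ∈ T → Φ v s = 1 := by
    intro v s hs; simp [hΦ, hs]
  have hN : ∀ v s, s ∉ T → Φ v s = E v s := by
    intro v s hs; simp [hΦ, hs]
  have hΦm : Monotone Φ := by
    intro v w h s
    by_cases hs : s ∈ T
    · rw [hT v s hs, hT w s hs]
    · rw [hN v s hs, hN w s hs]; exact hmono h s
  have hstart : v0 ≤ Φ v0 := by
    intro s
    by_cases hs : s ∈ T
    · rw [hT _ s hs]; simpa [hs] using h1 s
    · rw [hN _ s hs]
      have a1 : v0 s ≤ 0 := by simpa [hs] using h1 s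
      exact a1.trans ((hE0 s).trans (hmono (fun t => h0 t) s))
  have hseq : Monotone fun n : ℕ => Φ^[n] v0 := hΦm.monotone_iterate_of_le_map hstart
  have hleast : ∀ W : S → ℝ, (∀ s, 0 ≤ W s) → (∀ s, s ∈ T → 1 ≤ W s) →
      (∀ s, s ∉ T → E W s ≤ W s) → ∀ n, Φ^[n] v0 ≤ W := by
    intro W w0 w1 w2 n
    induction n with
    | zero =>
      intro s
      by_cases hs : s ∈ T
      · have a1 : v0 s ≤ 1 := by simpa [hs] using h1 s
        exact a1.trans (w1 s hs)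
      · have a1 : v0 s ≤ 0 := by simpa [hs] using h1 s
        exact a1.trans (w0 s)
    | succ n ih =>
      rw [Function.iterate_succ_apply']
      refine (hΦm ih).trans fun s => ?_
      by_cases hs : s ∈ T
      · rw [hT _ s hs]; exact w1 s hs
      · rw [hN _ s hs]; exact w2 s hs
  have hb : ∀ n, Φ^[n] v0 ≤ 1 :=
    hleast 1 (fun _ => zero_le_one) (fun _ _ => le_rfl) (fun s _ => hE1 s)
  have hbdd : ∀ s, BddAbove (Set.range fun n : ℕ => Φ^[n] v0 s) :=
    fun s => ⟨1, by rintro _ ⟨n, rfl⟩; exact hb n s⟩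
  have hlim : ∀ s, Tendsto (fun n : ℕ => Φ^[n] v0 s) atTop (𝓝 (⨆ n : ℕ, Φ^[n] v0 s)) :=
    fun s => tendsto_atTop_ciSup (fun a b h => hseq h s) (hbdd s)
  have hlim2 : ∀ s, Tendsto (fun n : ℕ => Φ (Φ^[n] v0) s) atTop (𝓝 (⨆ n : ℕ, Φ^[n] v0 s)) := by
    intro s
    have := (hlim s).comp (tendsto_add_atTop_nat 1)
    refine this.congr fun n => ?_
    simp [Function.iterate_succ_apply']
  refine ⟨fun s hs => ?_, fun s hs => ?_, fun s => ?_, fun s => ciSup_le fun n => hb n s,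
    fun W w0 w1 w2 s => ciSup_le fun n => hleast W w0 w1 w2 n s⟩
  · refine tendsto_nhds_unique (hlim2 s) ?_
    simp_rw [hT _ s hs]
    exact tendsto_const_nhds
  · refine tendsto_nhds_unique (hlim2 s) ?_
    simp_rw [hN _ s hs]
    exact ((continuous_apply s).tendsto _).comp ((hcont.tendsto _).comp (tendsto_pi_nhds.2 hlim))
  · exact (h0 s).trans (le_ciSup (hbdd s) 0)

end Pool.Agent.H270Z.Game
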