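import Mathlib
import Pool.Agent.H392Z.MO.Spec2

set_option autoImplicit false

open Filter Topology Finset

namespace Pool.Agent.H270Z.MOE1

open Pool.Agent.H392Z.MO

theorem card_B {A : ℝ} (h1 : 1 ≤ A) (h2 : A ≤ 2) {c : ℕ} (hc : 1 ≤ c) :
    ((B A c).card : ℝ) ≤ 5 * (c : ℝ) ^ (A - 1) := by
  have hc' : (1 : ℝ) ≤ c := by exact_mod_cast hc
  have hp : (0 : ℝ) < c := by linarith
  have hH : (1 : ℝ) ≤ (c : ℝ) ^ (A - 1) := Real.one_le_rpow hc' (by linarith)
  have e1 : (c : ℝ) ^ A = (c : ℝ) ^ (A - 1) * c := by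
    rw [← Real.rpow_add_one hp.ne']; ring_nf
  have e2 : ((c : ℝ) + 1) ^ A ≤ (c : ℝ) ^ A + 3 * (c : ℝ) ^ (A - 1) := by
    have a1 : ((c : ℝ) + 1) = c * (1 + 1 / c) := by field_simp
    have a0 : (1 : ℝ) ≤ 1 + 1 / c := by have : (0 : ℝ) < 1 / c := by positivity
                                        linarith
    have a2 : (1 + 1 / (c : ℝ)) ^ A ≤ (1 + 1 / (c : ℝ)) ^ (2 : ℝ) :=
      Real.rpow_le_rpow_of_exponent_le a0 h2
    rw [a1, Real.mul_rpow hp.le (by positivity)]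
    rw [Real.rpow_two] at a2
    have a3 : (c : ℝ) * (1 + 1 / c) ^ 2 ≤ c + 3 := by
      have : (1 : ℝ) / c ≤ 1 := by rw [div_le_one hp]; exact hc'
      have e : (c : ℝ) * (1 + 1 / c) ^ 2 = c + 2 + 1 / c := by field_simp; ring
      linarith
    calc (c : ℝ) ^ A * (1 + 1 / (c : ℝ)) ^ A ≤ (c : ℝ) ^ A * (1 + 1 / (c : ℝ)) ^ 2 := by gcongr
      _ = (c : ℝ) ^ (A - 1) * (c * (1 + 1 / c) ^ 2) := by rw [e1]; ring
      _ ≤ (c : ℝ) ^ (A - 1) * (c + 3) := by gcongr
      _ = _ := by rw [e1]; ring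
  have hle : ⌈tt A c⌉₊ ≤ ⌈tt A (c + 1)⌉₊ := by
    apply Nat.ceil_mono
    unfold tt
    push_cast
    exact Real.rpow_le_rpow hp.le (by linarith) (by linarith)
  unfold B
  rw [Nat.card_Ico, Nat.cast_sub hle]
  have b1 := Nat.le_ceil (tt A c)
  have b2 := Nat.ceil_lt_add_one (a := tt A (c + 1)) (by unfold tt; positivity)
  unfold tt at b1 b2 ⊢
  push_cast at b1 b2 ⊢
  linarith

theorem sparse_sum {M : Set ℕ} {C μ : ℝ} (hC : 0 < C) (hM : Sparse M C μ) (T : Finset ℕ)
    (hT : ∀ c ∈ T, c ∈ M ∧ 1 ≤ c) :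
    ∑ c ∈ T, (c : ℝ) ^ (-(2 * μ)) ≤ C ^ 2 * ∑' k : ℕ, 1 / (k : ℝ) ^ 2 := by
  classical
  set r : ℕ → ℕ := fun I => ((Finset.range (I + 1)).filter (fun c => c ∈ M)).card with hr
  have hlt : ∀ a b, a < b → b ∈ M → r a < r b := by
    intro a b hab hb
    apply Finset.card_lt_card
    refine ⟨Finset.filter_subset_filter _ (Finset.range_subset_range.2 (by omega)), fun h => ?_⟩
    have := h (Finset.mem_filter.2 ⟨Finset.mem_range.2 (Nat.lt_succ_self b), hb⟩)
    simp at this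
    omega
  have hinj : Set.InjOn r T := by
    intro a ha b hb hab
    rcases lt_trichotomy a b with h | h | h
    · exact absurd hab (hlt a b h (hT b hb).1).ne
    · exact h
    · exact absurd hab (hlt b a h (hT a ha).1).ne'
  have hs : Summable (fun k : ℕ => 1 / (k : ℝ) ^ 2) := Real.summable_one_div_nat_pow.2 (by norm_num)
  calc ∑ c ∈ T, (c : ℝ) ^ (-(2 * μ)) ≤ ∑ c ∈ T, C ^ 2 * (1 / (r c : ℝ) ^ 2) := by
        refine Finset.sum_le_sum fun c hc => ?_
        have hc1 : (0 : ℝ) < c := by exact_mod_cast (hT c hc).2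
        have r1 : 0 < r c := Finset.card_pos.2 ⟨c, Finset.mem_filter.2
          ⟨Finset.mem_range.2 (Nat.lt_succ_self c), (hT c hc).1⟩⟩
        have r2 : (0 : ℝ) < r c := by exact_mod_cast r1
        have r3 : (r c : ℝ) ≤ C * (c : ℝ) ^ μ := by
          have := hM c (hT c hc).2
          simpa [hr] using this
        have e : (c : ℝ) ^ (-(2 * μ)) = 1 / ((c : ℝ) ^ μ) ^ 2 := by
          rw [Real.rpow_neg hc1.le, mul_comm, Real.rpow_mul hc1.le, Real.rpow_two, one_div]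
        have p : (0 : ℝ) < (c : ℝ) ^ μ := by positivity
        rw [e, mul_one_div, div_le_div_iff₀ (by positivity) (by positivity), one_mul, ← mul_pow]
        gcongr
    _ = C ^ 2 * ∑ k ∈ T.image r, 1 / (k : ℝ) ^ 2 := by
        rw [Finset.sum_image hinj, Finset.mul_sum]
    _ ≤ _ := by
        gcongr
        exact hs.sum_le_tsum _ (fun _ _ => by positivity)

theorem handle_le {A κ : ℝ} (hκ : 0 < κ) (hκ' : κ ≤ 1 / 100) (h1 : 199 / 100 ≤ A) (h2 : A < 2)
    {c q : ℕ} (hc : 1 ≤ c) (h : kk κ c ≤ blk A q) :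
    (c : ℝ) ^ (A - 1) * (q : ℝ) ^ (κ / 2 - 1) ≤ 4 * (c : ℝ) ^ (-κ) := by
  have hc' : (1 : ℝ) ≤ c := by exact_mod_cast hc
  have hp : (0 : ℝ) < c := by linarith
  have x1 : (1 : ℝ) ≤ (c : ℝ) ^ (1 / 2 + κ) := Real.one_le_rpow hc' (by linarith)
  have k1 : (c : ℝ) ^ (1 / 2 + κ) / 2 ≤ (q : ℝ) ^ (1 / A) := by
    have a : ((kk κ c : ℕ) : ℝ) ≤ (blk A q : ℝ) := by exact_mod_cast h
    have b : (blk A q : ℝ) ≤ (q : ℝ) ^ (1 / A) := Nat.floor_le (by positivity)
    have d : (c : ℝ) ^ (1 / 2 + κ) < (kk κ c : ℝ) + 1 := Nat.lt_floor_add_one _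
    have e : (1 : ℝ) ≤ (kk κ c : ℝ) := by
      have : 1 ≤ kk κ c := Nat.le_floor (by simpa using x1)
      exact_mod_cast this
    linarith
  have k2 : (c : ℝ) ^ ((1 / 2 + κ) * A) / 4 ≤ q := by
    have a := Real.rpow_le_rpow (by positivity) k1 (by linarith : 0 ≤ A)
    rw [← Real.rpow_mul (by positivity), one_div_mul_cancel (by linarith), Real.rpow_one,
      Real.div_rpow (by positivity) (by norm_num), ← Real.rpow_mul hp.le] at a
    have b : (2 : ℝ) ^ A ≤ 4 := by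
      have := Real.rpow_le_rpow_of_exponent_le (by norm_num : (1 : ℝ) ≤ 2) h2.le
      rw [Real.rpow_two] at this
      linarith
    exact le_trans (by gcongr) a
  have k3 : (q : ℝ) ^ (κ / 2 - 1) ≤ ((c : ℝ) ^ ((1 / 2 + κ) * A) / 4) ^ (κ / 2 - 1) :=
    Real.rpow_le_rpow_of_nonpos (by positivity) k2 (by linarith)
  have k4 : ((c : ℝ) ^ ((1 / 2 + κ) * A) / 4) ^ (κ / 2 - 1) ≤
      4 * (c : ℝ) ^ ((1 / 2 + κ) * A * (κ / 2 - 1)) := by
    rw [Real.div_rpow (by positivity) (by norm_num), ← Real.rpow_mul hp.le, div_eq_mul_inv,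
      mul_comm, ← Real.rpow_neg (by norm_num)]
    gcongr
    calc (4 : ℝ) ^ (-(κ / 2 - 1)) ≤ (4 : ℝ) ^ (1 : ℝ) :=
          Real.rpow_le_rpow_of_exponent_le (by norm_num) (by linarith)
      _ = 4 := Real.rpow_one _
  calc (c : ℝ) ^ (A - 1) * (q : ℝ) ^ (κ / 2 - 1)
      ≤ (c : ℝ) ^ (A - 1) * (4 * (c : ℝ) ^ ((1 / 2 + κ) * A * (κ / 2 - 1))) := by
        gcongr; exact k3.trans k4
    _ = 4 * (c : ℝ) ^ (A - 1 + (1 / 2 + κ) * A * (κ / 2 - 1)) := by
        rw [Real.rpow_add hp]; ring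
    _ ≤ _ := by
        gcongr
        nlinarith [mul_nonneg hκ.le (sub_nonneg.2 h1), mul_nonneg hκ.le (sub_nonneg.2 hκ'),
          mul_nonneg (mul_nonneg hκ.le hκ.le) (sub_nonneg.2 h2.le)]

theorem hsum {A κ σ ε μ CM : ℝ} {M : Set ℕ} (P : Par A κ σ ε μ) (hC : 0 < CM)
    (hM : Sparse M CM μ) : HSum A κ σ M := by
  classical
  intro θ hθ
  have hκ : 0 < κ := P.s_pos.trans_le P.s_le
  have h1 : 199 / 100 ≤ A := by linarith [P.A_ge, P.s_le, P.k_le]
  set Z : ℝ := ∑' k : ℕ, 1 / (k : ℝ) ^ 2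
  have hZ : 0 ≤ Z := tsum_nonneg fun _ => by positivity
  have ht : Tendsto (fun i : ℕ => 20 * ((i : ℝ) ^ (-(κ / 2)) * (CM ^ 2 * Z))) atTop (𝓝 0) := by
    have := (((tendsto_rpow_neg_atTop (by linarith : 0 < κ / 2)).comp
      tendsto_natCast_atTop_atTop).mul_const (CM ^ 2 * Z)).const_mul 20
    simpa using this
  obtain ⟨i₀, hi⟩ := eventually_atTop.1 (ht.eventually (ge_mem_nhds hθ))
  refine ⟨max i₀ 1, fun i₁ h S hS => ?_⟩
  have hi1 : 1 ≤ i₁ := le_of_max_le_right h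
  refine le_trans ?_ (hi i₁ (le_of_max_le_left h))
  choose! home hm hl nn hn hq using hS
  have hhand : ∀ q ∈ S, nn q ∈ B A (home q) ∧ kk κ (home q) ≤ blk A q := by
    intro q hqS
    have := hn q hqS
    unfold Hand at this
    rw [Finset.mem_filter, hq q hqS] at this
    exact ⟨this.1, this.2.2.1⟩
  rw [← Finset.sum_fiberwise_of_maps_to (g := home) (t := S.image home)
    (fun q hq => Finset.mem_image_of_mem _ hq)]
  have hT : ∀ c ∈ S.image home, c ∈ M ∧ i₁ ≤ c := by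
    intro c hc
    obtain ⟨q, hqS, rfl⟩ := Finset.mem_image.1 hc
    exact ⟨hm q hqS, hl q hqS⟩
  have hsp := sparse_sum hC hM (S.image home) fun c hc => ⟨(hT c hc).1, hi1.trans (hT c hc).2⟩
  calc _ ≤ ∑ c ∈ S.image home, 20 * ((i₁ : ℝ) ^ (-(κ / 2)) * (c : ℝ) ^ (-(2 * μ))) := by
        refine Finset.sum_le_sum fun c hc => ?_
        have hc1 : 1 ≤ c := hi1.trans (hT c hc).2
        have hc' : (1 : ℝ) ≤ c := by exact_mod_cast hc1
        have hH : (0 : ℝ) < (c : ℝ) ^ (A - 1) := by positivity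
        have hcard : ((S.filter (fun q => home q = c)).card : ℝ) ≤ 5 * (c : ℝ) ^ (A - 1) := by
          refine le_trans ?_ (card_B (by linarith) P.A_lt.le hc1)
          have : (S.filter (fun q => home q = c)).card ≤ (B A c).card := by
            refine Finset.card_le_card_of_injOn nn ?_ ?_
            · intro q hq'
              obtain ⟨a, b⟩ := Finset.mem_filter.1 hq'
              exact b ▸ (hhand q a).1
            · intro q hq' q' hq'' e
              rw [← hq q (Finset.mem_filter.1 hq').1, e, hq q' (Finset.mem_filter.1 hq'').1]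
          exact_mod_cast this
        have hb : ∀ q ∈ S.filter (fun q => home q = c),
            (q : ℝ) ^ (κ / 2 - 1) ≤ 4 * (c : ℝ) ^ (-κ) / (c : ℝ) ^ (A - 1) := by
          intro q hq'
          obtain ⟨a, b⟩ := Finset.mem_filter.1 hq'
          rw [le_div_iff₀ hH, mul_comm]
          exact handle_le hκ P.k_le h1 P.A_lt hc1 (b ▸ (hhand q a).2)
        have := Finset.sum_le_card_nsmul _ _ _ hb
        rw [nsmul_eq_mul] at this
        refine this.trans ?_
        have e : (c : ℝ) ^ (-κ) ≤ (i₁ : ℝ) ^ (-(κ / 2)) * (c : ℝ) ^ (-(2 * μ)) := by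
          have : (c : ℝ) ^ (-κ) = (c : ℝ) ^ (-(κ / 2)) * (c : ℝ) ^ (-(κ / 2)) := by
            rw [← Real.rpow_add (by linarith)]; ring_nf
          rw [this]
          refine mul_le_mul ?_ ?_ (by positivity) (by positivity)
          · exact Real.rpow_le_rpow_of_nonpos (by exact_mod_cast hi1)
              (by exact_mod_cast (hT c hc).2) (by linarith)
          · exact Real.rpow_le_rpow_of_exponent_le hc' (by linarith [P.m_le, P.s_le])
        calc _ ≤ 5 * (c : ℝ) ^ (A - 1) * (4 * (c : ℝ) ^ (-κ) / (c : ℝ) ^ (A - 1)) := by gcongr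
          _ = 20 * (c : ℝ) ^ (-κ) := by field_simp; ring
          _ ≤ _ := by gcongr
    _ ≤ _ := by
        rw [← Finset.mul_sum, ← Finset.mul_sum]
        gcongr

theorem euler (G : ℕ → ℝ) (h0 : ∀ n, 0 ≤ G n) (h1 : G 1 = 1)
    (hm : ∀ m n, 0 < m → 0 < n → G (m * n) = G m * G n) (N : ℕ) {d : ℝ} (hd : d ≤ 1 / 2)
    (hp : ∑ p ∈ (Finset.Icc 1 N).filter Nat.Prime, G p ≤ d) :
    ∑ s ∈ Finset.Icc 2 N, G s ≤ 2 * d := by
  have hd0 : 0 ≤ d := le_trans (Finset.sum_nonneg fun _ _ => h0 _) hp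
  have hS0 : 0 ≤ ∑ s ∈ Finset.Icc 2 N, G s := Finset.sum_nonneg fun _ _ => h0 _
  have hS : ∑ s ∈ Finset.Icc 1 N, G s ≤ 1 + ∑ s ∈ Finset.Icc 2 N, G s := by
    have : Finset.Icc 1 N ⊆ insert 1 (Finset.Icc 2 N) := by
      intro x hx; simp at hx ⊢; omega
    refine (Finset.sum_le_sum_of_subset_of_nonneg this fun _ _ _ => h0 _).trans ?_
    rw [Finset.sum_insert (by simp), h1]
  have key : ∑ s ∈ Finset.Icc 2 N, G s ≤
      (∑ p ∈ (Finset.Icc 1 N).filter Nat.Prime, G p) * ∑ s ∈ Finset.Icc 1 N, G s := by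
    rw [Finset.sum_mul_sum, ← Finset.sum_product']
    have hinj : Set.InjOn (fun s : ℕ => (s.minFac, s / s.minFac)) (Finset.Icc 2 N : Finset ℕ) := by
      intro a _ b _ e
      simp only [Prod.mk.injEq] at e
      rw [← Nat.mul_div_cancel' (Nat.minFac_dvd a), e.2, e.1, Nat.mul_div_cancel' (Nat.minFac_dvd b)]
    calc ∑ s ∈ Finset.Icc 2 N, G s = ∑ x ∈ (Finset.Icc 2 N).image
          (fun s : ℕ => (s.minFac, s / s.minFac)), G x.1 * G x.2 := by
          rw [Finset.sum_image hinj]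
          refine Finset.sum_congr rfl fun s hs => ?_
          have hs2 := (Finset.mem_Icc.1 hs).1
          rw [← hm _ _ (Nat.minFac_pos s) (Nat.div_pos (Nat.minFac_le (by omega))
            (Nat.minFac_pos s)), Nat.mul_div_cancel' (Nat.minFac_dvd s)]
      _ ≤ _ := by
          refine Finset.sum_le_sum_of_subset_of_nonneg ?_ fun _ _ _ => mul_nonneg (h0 _) (h0 _)
          intro x hx
          obtain ⟨s, hs, rfl⟩ := Finset.mem_image.1 hx
          obtain ⟨a, b⟩ := Finset.mem_Icc.1 hs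
          have c := Nat.minFac_le (by omega : 0 < s)
          simp only [Finset.mem_product, Finset.mem_filter, Finset.mem_Icc]
          exact ⟨⟨⟨Nat.minFac_pos s, c.trans b⟩, Nat.minFac_prime (by omega)⟩,
            Nat.div_pos c (Nat.minFac_pos s), (Nat.div_le_self _ _).trans b⟩
  have : ∑ s ∈ Finset.Icc 2 N, G s ≤ d * (1 + ∑ s ∈ Finset.Icc 2 N, G s) :=
    key.trans (mul_le_mul hp hS (Finset.sum_nonneg fun _ _ => h0 _) hd0)
  nlinarith

theorem log_tail {m : ℕ} (hm : 2 ≤ m) (N : ℕ) :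
    ∑ n ∈ Finset.Ioc m N, 1 / ((n : ℝ) * Real.log n ^ 2) ≤ 1 / Real.log m := by
  have lp : ∀ n : ℕ, m ≤ n → 0 < Real.log n := fun n hn =>
    Real.log_pos (by exact_mod_cast (by omega : 1 < n))
  rcases le_or_gt N m with h | h
  · rw [Finset.Ioc_eq_empty (by omega), Finset.sum_empty]
    exact (one_div_pos.2 (lp m le_rfl)).le
  have key : ∀ N, m ≤ N →
      ∑ n ∈ Finset.Ioc m N, 1 / ((n : ℝ) * Real.log n ^ 2) ≤ 1 / Real.log m - 1 / Real.log N := by
    intro N hN
    induction N, hN using Nat.le_induction with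
    | base => simp
    | succ k hk ih =>
      rw [Finset.sum_Ioc_succ_top hk]
      have a := lp k hk
      have b := lp (k + 1) (by omega)
      have kp : (0 : ℝ) < k := by exact_mod_cast (by omega : 0 < k)
      have c : Real.log k ≤ Real.log ((k + 1 : ℕ) : ℝ) - 1 / ((k + 1 : ℕ) : ℝ) := by
        have := Real.log_le_sub_one_of_pos (x := (k : ℝ) / ((k + 1 : ℕ) : ℝ)) (by positivity)
        rw [Real.log_div kp.ne' (by positivity)] at this
        have e : (k : ℝ) / ((k + 1 : ℕ) : ℝ) - 1 = -(1 / ((k + 1 : ℕ) : ℝ)) := by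
          push_cast; field_simp; ring
        linarith
      have kp' : (0 : ℝ) < ((k + 1 : ℕ) : ℝ) := by positivity
      have u : (0 : ℝ) < 1 / ((k + 1 : ℕ) : ℝ) := by positivity
      have : 1 / (((k + 1 : ℕ) : ℝ) * Real.log ((k + 1 : ℕ) : ℝ) ^ 2) ≤
          1 / Real.log k - 1 / Real.log ((k + 1 : ℕ) : ℝ) := by
        rw [div_sub_div _ _ a.ne' b.ne', ← div_div]
        refine div_le_div₀ (by linarith) (by linarith) (by positivity) ?_
        nlinarith
      linarith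
  have := key N h.le
  have := one_div_pos.2 (lp N h.le)
  linarith

theorem gsum {A κ σ ε μ : ℝ} {M : Set ℕ} (P : Par A κ σ ε μ) (H : HSum A κ σ M) :
    GSum A κ σ ε M := by
  classical
  intro θ hθ
  set η : ℝ := min θ 1 / 4 with hη
  have η0 : 0 < η := by positivity
  have hA : 0 < A := by linarith [P.A_ge, P.s_le, P.k_le]
  obtain ⟨i₀, hi⟩ := H η η0
  have hy : Tendsto (fun i : ℕ => ⌊tt A i ^ σ⌋₊) atTop atTop :=
    tendsto_nat_floor_atTop.comp ((tendsto_rpow_atTop P.s_pos).comp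
      ((tendsto_rpow_atTop hA).comp tendsto_natCast_atTop_atTop))
  have hl : Tendsto (fun i : ℕ => 1 / Real.log (⌊tt A i ^ σ⌋₊ : ℕ)) atTop (𝓝 0) :=
    tendsto_const_nhds.div_atTop (Real.tendsto_log_atTop.comp (tendsto_natCast_atTop_atTop.comp hy))
  obtain ⟨j₀, hj⟩ := eventually_atTop.1 ((hl.eventually (ge_mem_nhds η0)).and
    (hy.eventually_ge_atTop 2))
  refine ⟨max i₀ j₀, fun i₁ h g hg N => ?_⟩
  obtain ⟨j1, j2⟩ := hj i₁ (le_of_max_le_right h)
  have := euler (fun s => g s * (s : ℝ) ^ (-ε))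
    (fun n => mul_nonneg (hg.nonneg n) (by positivity)) (by simp [hg.one])
    (fun m n hm hn => by
      rw [hg.mul m n hm hn, Nat.cast_mul, Real.mul_rpow (by positivity) (by positivity)]; ring)
    N (d := 2 * η) (by have := min_le_right θ 1; linarith) ?_
  · have := min_le_left θ 1
    linarith
  set m := ⌊tt A i₁ ^ σ⌋₊
  rw [← Finset.sum_filter_add_sum_filter_not _ (fun p => IsH A κ σ M i₁ p)]
  have s1 : ∑ p ∈ ((Finset.Icc 1 N).filter Nat.Prime).filter (fun p => IsH A κ σ M i₁ p),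
      g p * (p : ℝ) ^ (-ε) ≤ η := by
    refine le_trans (Finset.sum_le_sum fun p hp => ?_)
      (hi i₁ (le_of_max_le_left h) _ fun q hq => (Finset.mem_filter.1 hq).2)
    obtain ⟨a, b⟩ := Finset.mem_filter.1 hp
    have pp := (Finset.mem_filter.1 a).2
    have p1 : (1 : ℝ) ≤ p := by exact_mod_cast pp.one_le
    calc g p * (p : ℝ) ^ (-ε) ≤ (p : ℝ) ^ (2 * ε - 1) * (p : ℝ) ^ (-ε) := by
          gcongr; exact hg.handle p pp b
      _ = (p : ℝ) ^ (2 * ε - 1 + -ε) := by rw [Real.rpow_add (by linarith)]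
      _ ≤ _ := Real.rpow_le_rpow_of_exponent_le p1 (by linarith [P.e_le, P.s_le, P.s_pos])
  have s2 : ∑ p ∈ ((Finset.Icc 1 N).filter Nat.Prime).filter (fun p => ¬ IsH A κ σ M i₁ p),
      g p * (p : ℝ) ^ (-ε) ≤ η := by
    refine le_trans ?_ ((log_tail j2 N).trans j1)
    rw [← Finset.sum_filter_add_sum_filter_not _ (fun p => p ≤ m)]
    rw [Finset.sum_eq_zero, zero_add]
    · refine le_trans (Finset.sum_le_sum fun p hp => ?_)
        (Finset.sum_le_sum_of_subset_of_nonneg ?_ fun _ _ _ => by positivity)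
      · obtain ⟨a, -⟩ := Finset.mem_filter.1 hp
        obtain ⟨a, b⟩ := Finset.mem_filter.1 a
        have pp := (Finset.mem_filter.1 a).2
        have p1 : (0 : ℝ) < p := by exact_mod_cast pp.pos
        calc g p * (p : ℝ) ^ (-ε) ≤ phi ε p * (p : ℝ) ^ (-ε) := by
              gcongr; exact hg.normal p pp b
          _ = _ := by
              unfold phi
              rw [div_mul_eq_mul_div, ← Real.rpow_add p1, show ε - 1 + -ε = -1 by ring,
                Real.rpow_neg_one, ← div_div, one_div]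
      · intro p hp
        simp only [Finset.mem_filter, Finset.mem_Icc, Finset.mem_Ioc] at hp ⊢
        omega
    · intro p hp
      obtain ⟨a, b⟩ := Finset.mem_filter.1 hp
      have pp := (Finset.mem_filter.1 (Finset.mem_filter.1 a).1).2
      rw [hg.small p pp ((Nat.le_floor_iff (by unfold tt; positivity)).1 b), zero_mul]
  linarith

theorem dsum {A κ σ : ℝ} {M : Set ℕ} (H : HSum A κ σ M) : DSum A κ σ M := by
  classical
  obtain ⟨i₀, hi⟩ := H (1 / 2) (by norm_num)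
  refine ⟨i₀, fun i₁ h S hS => ?_⟩
  set G : ℕ → ℝ := fun d =>
    if ∀ p : ℕ, p.Prime → p ∣ d → IsH A κ σ M i₁ p then (d : ℝ) ^ (κ / 2 - 1) else 0 with hG
  have h0 : ∀ n, 0 ≤ G n := fun n => by simp only [hG]; split_ifs <;> positivity
  have h1 : G 1 = 1 := by
    simp only [hG]
    rw [if_pos fun p hp hd => absurd (Nat.dvd_one.1 hd) hp.ne_one]
    simp
  have := euler G h0 h1 (fun m n hm hn => by
    simp only [hG]
    by_cases a : ∀ p : ℕ, p.Prime → p ∣ m → IsH A κ σ M i₁ p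
    · by_cases b : ∀ p : ℕ, p.Prime → p ∣ n → IsH A κ σ M i₁ p
      · rw [if_pos a, if_pos b, if_pos fun p hp hd => ((Nat.Prime.dvd_mul hp).1 hd).elim (a p hp)
          (b p hp), Nat.cast_mul, Real.mul_rpow (by positivity) (by positivity)]
      · rw [if_neg b, if_neg fun c => b fun p hp hd => c p hp (hd.mul_left m), mul_zero]
    · rw [if_neg a, if_neg fun c => a fun p hp hd => c p hp (hd.mul_right n), zero_mul])
    (S.sup id) (d := 1 / 2) le_rfl ?_
  · calc ∑ d ∈ S, (d : ℝ) ^ (κ / 2 - 1) = ∑ d ∈ S, G d :=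
          Finset.sum_congr rfl fun d hd => by simp only [hG]; rw [if_pos (hS d hd).2]
      _ ≤ ∑ d ∈ insert 1 (Finset.Icc 2 (S.sup id)), G d := by
          refine Finset.sum_le_sum_of_subset_of_nonneg ?_ fun _ _ _ => h0 _
          intro d hd
          have a := (hS d hd).1
          have b : d ≤ S.sup id := Finset.le_sup (f := id) hd
          simp only [Finset.mem_insert, Finset.mem_Icc]
          omega
      _ ≤ 2 := by rw [Finset.sum_insert (by simp), h1]; linarith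
  · refine le_trans (le_of_eq ?_) (hi i₁ h (((Finset.Icc 1 (S.sup id)).filter Nat.Prime).filter
      (fun p => IsH A κ σ M i₁ p)) fun q hq => (Finset.mem_filter.1 hq).2)
    rw [Finset.sum_filter (s := (Finset.Icc 1 (S.sup id)).filter Nat.Prime)]
    refine Finset.sum_congr rfl fun p hp => ?_
    have pp := (Finset.mem_filter.1 hp).2
    simp only [hG]
    refine if_congr ⟨fun c => c p pp dvd_rfl, fun c q hq hd => ?_⟩ rfl rfl
    rwa [(Nat.prime_dvd_prime_iff_eq hq pp).1 hd]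

theorem e1 : Pool.Agent.H392Z.MO.S_E1 := fun _ _ _ _ _ _ _ P hC hM =>
  ⟨hsum P hC hM, gsum P (hsum P hC hM), dsum (hsum P hC hM)⟩

end Pool.Agent.H270Z.MOE1
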