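import Mathlib
import Pool.Agent.H270Z.Lfp

set_option autoImplicit false

namespace Pool.Agent.H270Z.Game2

open Pool.Agent.H270Z.Game

def cc : Fin 14 → ℕ := ![0, 0, 2, 2, 0, 0, 6, 2, 8, 8, 3, 5, 8, 8]
def XX : Fin 14 → Fin 14 := ![2, 3, 7, 6, 9, 8, 12, 12, 10, 11, 12, 12, 12, 13]
def YY : Fin 14 → Fin 14 := ![1, 0, 4, 5, 1, 0, 13, 13, 10, 11, 13, 13, 12, 13]

def cond (s : Fin 14) (i j : Fin 8) : Bool :=
  if s = 0 ∨ s = 5 then decide (i = 0) else if s = 1 ∨ s = 4 then decide (j = 0)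
  else decide ((i + j).val < cc s)

def next (s : Fin 14) (i j : Fin 8) : Fin 14 := if cond s i j then XX s else YY s

def St (σ : Fin 14 → Fin 8 → ℝ) : Prop := (∀ s a, 0 ≤ σ s a) ∧ ∀ s, ∑ a, σ s a = 1

noncomputable def EE (σ τ : Fin 14 → Fin 8 → ℝ) (v : Fin 14 → ℝ) : Fin 14 → ℝ :=
  fun x => ∑ a, ∑ b, σ x a * τ x b * v (next x a b)

noncomputable def pr (σ τ : Fin 14 → Fin 8 → ℝ) (s : Fin 14) : ℝ :=
  ∑ a, ∑ b, σ s a * τ s b * (if cond s a b then 1 else 0)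

theorem tot {σ τ : Fin 14 → Fin 8 → ℝ} (hσ : St σ) (hτ : St τ) (s : Fin 14) :
    ∑ a, ∑ b, σ s a * τ s b = 1 := by
  simp_rw [← Finset.mul_sum, hτ.2, mul_one, hσ.2]

theorem pr_nonneg {σ τ : Fin 14 → Fin 8 → ℝ} (hσ : St σ) (hτ : St τ) (s : Fin 14) :
    0 ≤ pr σ τ s :=
  Finset.sum_nonneg fun a _ => Finset.sum_nonneg fun b _ =>
    mul_nonneg (mul_nonneg (hσ.1 s a) (hτ.1 s b)) (by split_ifs <;> norm_num)

theorem pr_le {σ τ : Fin 14 → Fin 8 → ℝ} (hσ : St σ) (hτ : St τ) (s : Fin 14) :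
    pr σ τ s ≤ 1 := by
  rw [← tot hσ hτ s]
  exact Finset.sum_le_sum fun a _ => Finset.sum_le_sum fun b _ =>
    mul_le_of_le_one_right (mul_nonneg (hσ.1 s a) (hτ.1 s b)) (by split_ifs <;> norm_num)

theorem EE_eq {σ τ : Fin 14 → Fin 8 → ℝ} (hσ : St σ) (hτ : St τ) (v : Fin 14 → ℝ) (s : Fin 14) :
    EE σ τ v s = pr σ τ s * v (XX s) + (1 - pr σ τ s) * v (YY s) := by
  have : EE σ τ v s = ∑ a, ∑ b, (σ s a * τ s b * (if cond s a b then 1 else 0) *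
      (v (XX s) - v (YY s)) + σ s a * τ s b * v (YY s)) := by
    refine Finset.sum_congr rfl fun a _ => Finset.sum_congr rfl fun b _ => ?_
    unfold next
    split_ifs <;> ring
  rw [this]
  simp_rw [Finset.sum_add_distrib, ← Finset.sum_mul]
  rw [tot hσ hτ s]
  unfold pr
  ring

theorem pr_left {σ τ : Fin 14 → Fin 8 → ℝ} (hτ : St τ) {s : Fin 14} (hs : s = 0 ∨ s = 5) :
    pr σ τ s = σ s 0 := by
  unfold pr cond
  simp_rw [if_pos hs, ← Finset.sum_mul, ← Finset.mul_sum, hτ.2]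
  simp

theorem pr_right {σ τ : Fin 14 → Fin 8 → ℝ} (hσ : St σ) {s : Fin 14} (hs : s = 1 ∨ s = 4) :
    pr σ τ s = τ s 0 := by
  have h : ¬ (s = 0 ∨ s = 5) := by rcases hs with rfl | rfl <;> decide
  unfold pr cond
  rw [Finset.sum_comm]
  simp_rw [if_neg h, if_pos hs, ← Finset.sum_mul, hσ.2]
  simp

noncomputable def dev (e : Bool) : Fin 14 → Fin 8 → ℝ := fun s i =>
  if s = 0 ∨ s = 1 ∨ s = 4 ∨ s = 5 then (if i = (if e then 0 else 1) then 1 else 0) else 1 / 8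

theorem st_dev (e : Bool) : St (dev e) := by
  constructor
  · intro s a; unfold dev; split_ifs <;> norm_num
  · intro s
    unfold dev
    split_ifs <;> simp

theorem count_left (s : Fin 14) (hs : ¬ (s = 0 ∨ s = 1 ∨ s = 4 ∨ s = 5)) (b : Fin 8) :
    ∑ a : Fin 8, (if cond s a b then 1 else 0 : ℕ) = cc s := by
  revert s b; decide

theorem count_right (s : Fin 14) (hs : ¬ (s = 0 ∨ s = 1 ∨ s = 4 ∨ s = 5)) (a : Fin 8) :
    ∑ b : Fin 8, (if cond s a b then 1 else 0 : ℕ) = cc s := by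
  revert s a; decide

theorem pr_devl {τ : Fin 14 → Fin 8 → ℝ} (hτ : St τ) (e : Bool) (s : Fin 14)
    (hs : ¬ (s = 0 ∨ s = 1 ∨ s = 4 ∨ s = 5)) : pr (dev e) τ s = cc s / 8 := by
  unfold pr
  rw [Finset.sum_comm]
  have : ∀ b, ∑ a, dev e s a * τ s b * (if cond s a b then 1 else 0) = τ s b * (cc s / 8) := by
    intro b
    have h := congrArg (Nat.cast : ℕ → ℝ) (count_left s hs b)
    push_cast at h
    simp_rw [dev, if_neg hs, ← Finset.mul_sum, h]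
    ring
  simp_rw [this, ← Finset.sum_mul, hτ.2, one_mul]

theorem pr_devr {σ : Fin 14 → Fin 8 → ℝ} (hσ : St σ) (e : Bool) (s : Fin 14)
    (hs : ¬ (s = 0 ∨ s = 1 ∨ s = 4 ∨ s = 5)) : pr σ (dev e) s = cc s / 8 := by
  unfold pr
  have : ∀ a, ∑ b, σ s a * dev e s b * (if cond s a b then 1 else 0) = σ s a * (cc s / 8) := by
    intro a
    have h := congrArg (Nat.cast : ℕ → ℝ) (count_right s hs a)
    push_cast at h
    simp_rw [dev, if_neg hs, ← Finset.mul_sum, h]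
    ring
  simp_rw [this, ← Finset.sum_mul, hσ.2, one_mul]

noncomputable def Val (σ τ : Fin 14 → Fin 8 → ℝ) (T : Set (Fin 14)) : Fin 14 → ℝ :=
  fun s => ⨆ n : ℕ, ((fun v : Fin 14 → ℝ =>
      T.indicator (fun _ => (1 : ℝ)) + Tᶜ.indicator (EE σ τ v))^[n]
        (T.indicator (fun _ => (1 : ℝ)))) s

theorem val_spec {σ τ : Fin 14 → Fin 8 → ℝ} (hσ : St σ) (hτ : St τ) (T : Set (Fin 14)) :
    Spec (EE σ τ) T (Val σ τ T) := by
  refine spec_iSup _ T _ ?_ ?_ ?_ ?_ ?_ le_rfl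
  · intro v w h s
    exact Finset.sum_le_sum fun a _ => Finset.sum_le_sum fun b _ =>
      mul_le_mul_of_nonneg_left (h _) (mul_nonneg (hσ.1 s a) (hτ.1 s b))
  · unfold EE; fun_prop
  · intro s; rw [EE_eq hσ hτ]; simp
  · intro s; simp [EE]
  · intro s; exact Set.indicator_nonneg (fun _ _ => zero_le_one) s

def T1 : Set (Fin 14) := {9, 12}
def T2 : Set (Fin 14) := {8, 13}

structure Eqs (p : Fin 14 → ℝ) (h m k k' g3 g5 : ℝ) (V : Fin 14 → ℝ) : Prop where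
  e0 : V 0 = p 0 * V 2 + (1 - p 0) * V 1
  e1 : V 1 = p 1 * V 3 + (1 - p 1) * V 0
  e2 : V 2 = p 2 * m + (1 - p 2) * V 4
  e3 : V 3 = p 3 * h + (1 - p 3) * V 5
  e4 : V 4 = p 4 * k' + (1 - p 4) * V 1
  e5 : V 5 = p 5 * k + (1 - p 5) * V 0
  e6 : V 6 = h
  e7 : V 7 = m
  e10 : V 10 = g3
  e11 : V 11 = g5
  nn : ∀ s, 0 ≤ V s
  le1 : ∀ s, V s ≤ 1
  least : ∀ w0 w1 w2 w3 w4 w5 : ℝ, 0 ≤ w0 → 0 ≤ w1 → 0 ≤ w2 → 0 ≤ w3 → 0 ≤ w4 → 0 ≤ w5 →
    p 0 * w2 + (1 - p 0) * w1 ≤ w0 → p 1 * w3 + (1 - p 1) * w0 ≤ w1 →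
    p 2 * m + (1 - p 2) * w4 ≤ w2 → p 3 * h + (1 - p 3) * w5 ≤ w3 →
    p 4 * k' + (1 - p 4) * w1 ≤ w4 → p 5 * k + (1 - p 5) * w0 ≤ w5 → V 0 ≤ w0 ∧ V 1 ≤ w1

theorem eqs1 {σ τ : Fin 14 → Fin 8 → ℝ} (hσ : St σ) (hτ : St τ) :
    Eqs (pr σ τ) (pr σ τ 6) (pr σ τ 7) (pr σ τ 10) 1 (pr σ τ 10) (pr σ τ 11) (Val σ τ T1) := by
  have H := val_spec hσ hτ T1
  have h9 := H.mem 9 (by simp [T1])
  have h12 := H.mem 12 (by simp [T1])
  have h13 : Val σ τ T1 13 = 0 := by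
    refine le_antisymm ?_ (H.nonneg 13)
    have := H.least (fun s => if s = 13 then 0 else 1) (fun s => by split_ifs <;> norm_num)
      (fun s hs => by rcases hs with rfl | rfl <;> simp) (fun s _ => by
        rw [EE_eq hσ hτ]
        have a := pr_nonneg hσ hτ s
        have b := pr_le hσ hτ s
        fin_cases s <;> simp [XX, YY] at a b ⊢ <;> linarith) 13
    simpa using this
  have e : ∀ s, s ∉ T1 → Val σ τ T1 s = pr σ τ s * Val σ τ T1 (XX s) +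
      (1 - pr σ τ s) * Val σ τ T1 (YY s) := fun s hs => by rw [← EE_eq hσ hτ, ← H.nmem s hs]
  have e6 : Val σ τ T1 6 = pr σ τ 6 := by simpa [XX, YY, h12, h13] using e 6 (by simp [T1])
  have e7 : Val σ τ T1 7 = pr σ τ 7 := by simpa [XX, YY, h12, h13] using e 7 (by simp [T1])
  have e10 : Val σ τ T1 10 = pr σ τ 10 := by simpa [XX, YY, h12, h13] using e 10 (by simp [T1])
  have e11 : Val σ τ T1 11 = pr σ τ 11 := by simpa [XX, YY, h12, h13] using e 11 (by simp [T1])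
  have e8 : Val σ τ T1 8 = pr σ τ 10 := by
    have := e 8 (by simp [T1])
    simp only [XX, YY, Matrix.cons_val, e10] at this
    linarith
  refine ⟨by simpa [XX, YY] using e 0 (by simp [T1]), by simpa [XX, YY] using e 1 (by simp [T1]),
    by simpa [XX, YY, e7] using e 2 (by simp [T1]), by simpa [XX, YY, e6] using e 3 (by simp [T1]),
    by simpa [XX, YY, h9] using e 4 (by simp [T1]), by simpa [XX, YY, e8] using e 5 (by simp [T1]),
    e6, e7, e10, e11, H.nonneg, H.le_one, ?_⟩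
  intro w0 w1 w2 w3 w4 w5 a0 a1 a2 a3 a4 a5 b0 b1 b2 b3 b4 b5
  have n := pr_nonneg hσ hτ
  have := H.least ![w0, w1, w2, w3, w4, w5, pr σ τ 6, pr σ τ 7, pr σ τ 10, 1, pr σ τ 10,
    pr σ τ 11, 1, 0] (fun s => by fin_cases s <;> simp [*])
    (fun s hs => by rcases hs with rfl | rfl <;> simp) (fun s hs => by
      rw [EE_eq hσ hτ]
      fin_cases s <;> simp [XX, YY, T1] at hs ⊢ <;> linarith)
  exact ⟨this 0, this 1⟩

theorem eqs2 {σ τ : Fin 14 → Fin 8 → ℝ} (hσ : St σ) (hτ : St τ) :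
    Eqs (pr σ τ) (1 - pr σ τ 6) (1 - pr σ τ 7) 1 (1 - pr σ τ 11) (1 - pr σ τ 10)
      (1 - pr σ τ 11) (Val σ τ T2) := by
  have H := val_spec hσ hτ T2
  have h8 := H.mem 8 (by simp [T2])
  have h13 := H.mem 13 (by simp [T2])
  have h12 : Val σ τ T2 12 = 0 := by
    refine le_antisymm ?_ (H.nonneg 12)
    have := H.least (fun s => if s = 12 then 0 else 1) (fun s => by split_ifs <;> norm_num)
      (fun s hs => by rcases hs with rfl | rfl <;> simp) (fun s _ => by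
        rw [EE_eq hσ hτ]
        have a := pr_nonneg hσ hτ s
        have b := pr_le hσ hτ s
        fin_cases s <;> simp [XX, YY] at a b ⊢ <;> linarith) 12
    simpa using this
  have e : ∀ s, s ∉ T2 → Val σ τ T2 s = pr σ τ s * Val σ τ T2 (XX s) +
      (1 - pr σ τ s) * Val σ τ T2 (YY s) := fun s hs => by rw [← EE_eq hσ hτ, ← H.nmem s hs]
  have e6 : Val σ τ T2 6 = 1 - pr σ τ 6 := by simpa [XX, YY, h12, h13] using e 6 (by simp [T2])
  have e7 : Val σ τ T2 7 = 1 - pr σ τ 7 := by simpa [XX, YY, h12, h13] using e 7 (by simp [T2])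
  have e10 : Val σ τ T2 10 = 1 - pr σ τ 10 := by
    simpa [XX, YY, h12, h13] using e 10 (by simp [T2])
  have e11 : Val σ τ T2 11 = 1 - pr σ τ 11 := by
    simpa [XX, YY, h12, h13] using e 11 (by simp [T2])
  have e9 : Val σ τ T2 9 = 1 - pr σ τ 11 := by
    have := e 9 (by simp [T2])
    simp only [XX, YY, Matrix.cons_val, e11] at this
    linarith
  refine ⟨by simpa [XX, YY] using e 0 (by simp [T2]), by simpa [XX, YY] using e 1 (by simp [T2]),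
    by simpa [XX, YY, e7] using e 2 (by simp [T2]), by simpa [XX, YY, e6] using e 3 (by simp [T2]),
    by simpa [XX, YY, e9] using e 4 (by simp [T2]), by simpa [XX, YY, h8] using e 5 (by simp [T2]),
    e6, e7, e10, e11, H.nonneg, H.le_one, ?_⟩
  intro w0 w1 w2 w3 w4 w5 a0 a1 a2 a3 a4 a5 b0 b1 b2 b3 b4 b5
  have n := pr_le hσ hτ
  have := H.least ![w0, w1, w2, w3, w4, w5, 1 - pr σ τ 6, 1 - pr σ τ 7, 1, 1 - pr σ τ 11,
    1 - pr σ τ 10, 1 - pr σ τ 11, 0, 1] (fun s => by fin_cases s <;> simp [*])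
    (fun s hs => by rcases hs with rfl | rfl <;> simp) (fun s hs => by
      rw [EE_eq hσ hτ]
      fin_cases s <;> simp [XX, YY, T2] at hs ⊢ <;> linarith)
  exact ⟨this 0, this 1⟩

end Pool.Agent.H270Z.Game2
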