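import Mathlib
import Pool.Agent.H270Z.RR

set_option autoImplicit false

namespace Pool.Agent.H270Z.Game2

theorem no_eq (σ τ : Fin 14 → Fin 8 → ℝ) (hσ : St σ) (hτ : St τ)
    (h1 : ∀ s σ', St σ' → Val σ' τ T1 s ≤ Val σ τ T1 s + 1 / 1000)
    (h2 : ∀ s τ', St τ' → Val σ τ' T2 s ≤ Val σ τ T2 s + 1 / 1000) : False := by
  have P := eqs1 hσ hτ
  have Q := eqs2 hσ hτ
  have n := pr_nonneg hσ hτ
  have l := pr_le hσ hτ
  have D := fun e => eqs1 (st_dev e) hτ
  have C := fun e => eqs2 hσ (st_dev e)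
  have a := fun s e => h1 s _ (st_dev e)
  have b := fun s e => h2 s _ (st_dev e)
  have d0 : ∀ e, pr (dev e) τ 0 = if e then 1 else 0 := by
    intro e; rw [pr_left hτ (Or.inl rfl)]; cases e <;> simp [dev]
  have d5 : ∀ e, pr (dev e) τ 5 = if e then 1 else 0 := by
    intro e; rw [pr_left hτ (Or.inr rfl)]; cases e <;> simp [dev]
  have d1 : ∀ e, pr (dev e) τ 1 = pr σ τ 1 := by
    intro e; rw [pr_right (st_dev e) (Or.inl rfl), pr_right hσ (Or.inl rfl)]
  have d4 : ∀ e, pr (dev e) τ 4 = pr σ τ 4 := by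
    intro e; rw [pr_right (st_dev e) (Or.inr rfl), pr_right hσ (Or.inr rfl)]
  have c1 : ∀ e, pr σ (dev e) 1 = if e then 1 else 0 := by
    intro e; rw [pr_right hσ (Or.inl rfl)]; cases e <;> simp [dev]
  have c4 : ∀ e, pr σ (dev e) 4 = if e then 1 else 0 := by
    intro e; rw [pr_right hσ (Or.inr rfl)]; cases e <;> simp [dev]
  have c0 : ∀ e, pr σ (dev e) 0 = pr σ τ 0 := by
    intro e; rw [pr_left (st_dev e) (Or.inl rfl), pr_left hτ (Or.inl rfl)]
  have c5 : ∀ e, pr σ (dev e) 5 = pr σ τ 5 := by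
    intro e; rw [pr_left (st_dev e) (Or.inr rfl), pr_left hτ (Or.inr rfl)]
  have k2 : cc 2 = 2 := rfl
  have k3 : cc 3 = 2 := rfl
  have k6 : cc 6 = 6 := rfl
  have k7 : cc 7 = 2 := rfl
  have k10 : cc 10 = 3 := rfl
  have k11 : cc 11 = 5 := rfl
  have dl : ∀ e, pr (dev e) τ 2 = 1 / 4 ∧ pr (dev e) τ 3 = 1 / 4 ∧ pr (dev e) τ 6 = 3 / 4 ∧
      pr (dev e) τ 7 = 1 / 4 ∧ pr (dev e) τ 10 = 3 / 8 ∧ pr (dev e) τ 11 = 5 / 8 := by
    intro e
    refine ⟨?_, ?_, ?_, ?_, ?_, ?_⟩ <;> rw [pr_devl hτ e _ (by decide)] <;> norm_num [k2, k3, k6, k7, k10, k11]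
  have cl : ∀ e, pr σ (dev e) 2 = 1 / 4 ∧ pr σ (dev e) 3 = 1 / 4 ∧ pr σ (dev e) 6 = 3 / 4 ∧
      pr σ (dev e) 7 = 1 / 4 ∧ pr σ (dev e) 10 = 3 / 8 ∧ pr σ (dev e) 11 = 5 / 8 := by
    intro e
    refine ⟨?_, ?_, ?_, ?_, ?_, ?_⟩ <;> rw [pr_devr hσ e _ (by decide)] <;> norm_num [k2, k3, k6, k7, k10, k11]
  -- pinning of the constant-sum gadgets
  have u6 : pr σ τ 6 ≤ 3 / 4 + 1 / 1000 := by
    linarith [b 6 true, (C true).e6, Q.e6, (cl true).2.2.1]
  have u7 : 1 / 4 - 1 / 1000 ≤ pr σ τ 7 := by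
    linarith [a 7 true, (D true).e7, P.e7, (dl true).2.2.2.1]
  have u10 : pr σ τ 10 ≤ 3 / 8 + 1 / 1000 := by
    linarith [b 10 true, (C true).e10, Q.e10, (cl true).2.2.2.2.1]
  have u11 : 5 / 8 - 1 / 1000 ≤ pr σ τ 11 := by
    linarith [a 11 true, (D true).e11, P.e11, (dl true).2.2.2.2.2]
  -- waiting deviations
  have wait1 : 0 < pr σ τ 1 →
      3 / 4 - 1 / 1000 ≤ Val σ τ T1 0 ∧ 3 / 4 - 1 / 1000 ≤ Val σ τ T1 1 := by
    intro hy
    have e0 := (D false).e0
    have e1 := (D false).e1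
    have e3 := (D false).e3
    have e5 := (D false).e5
    rw [d0] at e0
    rw [d1] at e1
    rw [(dl false).2.1, (dl false).2.2.1] at e3
    rw [d5] at e5
    simp only [Bool.false_eq_true, if_false, zero_mul, sub_zero, one_mul, zero_add] at e0 e5
    have : pr σ τ 1 * (Val (dev false) τ T1 0 - 3 / 4) = 0 := by
      rw [e3, e5] at e1; linarith
    rcases mul_eq_zero.1 this with h | h
    · linarith
    · constructor <;> linarith [a 0 false, a 1 false]
  have wait2 : 0 < pr σ τ 0 →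
      3 / 4 - 1 / 1000 ≤ Val σ τ T2 0 ∧ 3 / 4 - 1 / 1000 ≤ Val σ τ T2 1 := by
    intro hx
    have e0 := (C false).e0
    have e1 := (C false).e1
    have e2 := (C false).e2
    have e4 := (C false).e4
    rw [c0] at e0
    rw [c1] at e1
    rw [(cl false).1, (cl false).2.2.2.1] at e2
    rw [c4] at e4
    simp only [Bool.false_eq_true, if_false, zero_mul, sub_zero, one_mul, zero_add] at e1 e4
    have : pr σ τ 0 * (Val σ (dev false) T2 1 - 3 / 4) = 0 := by
      rw [e2, e4] at e0; linarith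
    rcases mul_eq_zero.1 this with h | h
    · linarith
    · constructor <;> linarith [b 0 false, b 1 false]
  have m2 : ∀ {t : ℝ}, 0 ≤ t → 0 ≤ pr σ τ 2 * t := fun h => mul_nonneg (n 2) h
  have m3 : ∀ {t : ℝ}, 0 ≤ t → 0 ≤ pr σ τ 3 * t := fun h => mul_nonneg (n 3) h
  have m4 : ∀ {t : ℝ}, 0 ≤ t → 0 ≤ pr σ τ 4 * t := fun h => mul_nonneg (n 4) h
  have m5 : ∀ {t : ℝ}, 0 ≤ t → 0 ≤ pr σ τ 5 * t := fun h => mul_nonneg (n 5) h
  rcases (n 0).lt_or_eq with hx | hx
  · rcases (n 1).lt_or_eq with hy | hy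
    · -- both leave the cycle
      have := (P.least (11 / 8 + 1 / 1000 - Val σ τ T2 0) (11 / 8 + 1 / 1000 - Val σ τ T2 1)
        (11 / 8 + 1 / 1000 - Val σ τ T2 2) (11 / 8 + 1 / 1000 - Val σ τ T2 3)
        (11 / 8 + 1 / 1000 - Val σ τ T2 4) (11 / 8 + 1 / 1000 - Val σ τ T2 5)
        (by linarith [Q.le1 0]) (by linarith [Q.le1 1]) (by linarith [Q.le1 2])
        (by linarith [Q.le1 3]) (by linarith [Q.le1 4]) (by linarith [Q.le1 5])
        (by linarith [Q.e0]) (by linarith [Q.e1]) (by linarith [Q.e2, n 2])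
        (by linarith [Q.e3, n 3])
        (by linarith [Q.e4, m4 (sub_nonneg.2 u11)]) (by linarith [Q.e5, m5 (sub_nonneg.2 u10)])).1
      linarith [(wait1 hy).1, (wait2 hx).1]
    · -- only player 1 leaves
      have P0 := P.e0
      have P1 := P.e1
      have Q1 := Q.e1
      rw [← hy] at P1 Q1
      have ub : ∀ s, s = 0 ∨ s = 1 → Val σ τ T2 s ≤ 3 / 4 + 1 / 1000 := by
        have := Q.least (3 / 4 + 1 / 1000) (3 / 4 + 1 / 1000) (3 / 4 + 1 / 1000) 1
          (3 / 4 + 1 / 1000) 1 (by norm_num) (by norm_num) (by norm_num) (by norm_num)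
          (by norm_num) (by norm_num) (by linarith) (by rw [← hy]; linarith)
          (by linarith [m2 (sub_nonneg.2 u7)]) (by linarith [m3 (n 6)])
          (by linarith [m4 (sub_nonneg.2 u11), n 4]) (by linarith [l 5])
        rintro s (rfl | rfl)
        · exact this.1
        · exact this.2
      have ub1 := ub 1 (Or.inr rfl)
      have ub4 : Val σ τ T2 4 ≤ 3 / 4 + 1 / 1000 := by
        nlinarith [Q.e4, m4 (sub_nonneg.2 u11), n 4, l 4]
      have ub2 : Val σ τ T2 2 ≤ 3 / 4 + 1 / 1000 := by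
        nlinarith [Q.e2, m2 (sub_nonneg.2 u7), n 2, l 2]
      have w := wait2 hx
      have small := (P.least (7 / 4 + 2 / 1000 - 2 * Val σ τ T2 0)
        (7 / 4 + 2 / 1000 - 2 * Val σ τ T2 1) (7 / 4 + 2 / 1000 - 2 * Val σ τ T2 2) 1
        (7 / 4 + 2 / 1000 - 2 * Val σ τ T2 4) 1 (by linarith [ub 0 (Or.inl rfl)]) (by linarith)
        (by linarith) (by norm_num) (by linarith) (by norm_num) (by linarith [Q.e0])
        (by rw [← hy]; linarith) (by linarith [Q.e2, m2 (sub_nonneg.2 u7), n 2])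
        (by linarith [m3 (sub_nonneg.2 (l 6))]) (by linarith [Q.e4, m4 (sub_nonneg.2 u11)])
        (by nlinarith [m5 (sub_nonneg.2 (l 10)), l 5, w.1])).1
      have e5 := (D true).e5
      rw [d5, (dl true).2.2.2.2.1] at e5
      simp only [if_true] at e5
      have hz : 0.98 ≤ pr σ τ 5 := by
        nlinarith [a 5 true, P.e5, m5 (sub_nonneg.2 u10), l 5, w.1]
      have f1 := (C true).e1
      have f3 := (C true).e3
      have f5 := (C true).e5
      rw [c1] at f1
      rw [(cl true).2.1, (cl true).2.2.1] at f3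
      rw [c5] at f5
      simp only [if_true] at f1
      have := mul_nonneg (sub_nonneg.2 (l 5)) ((C true).nn 0)
      linarith [b 1 true]
  · have P0 := P.e0
    have Q0 := Q.e0
    rw [← hx] at P0 Q0
    have ub : ∀ s, s = 0 ∨ s = 1 → Val σ τ T1 s ≤ 3 / 4 + 1 / 1000 := by
      have := P.least (3 / 4 + 1 / 1000) (3 / 4 + 1 / 1000) 1 (3 / 4 + 1 / 1000) 1
        (3 / 4 + 1 / 1000) (by norm_num) (by norm_num) (by norm_num) (by norm_num)
        (by norm_num) (by norm_num) (by rw [← hx]; linarith) (by linarith)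
        (by linarith [m2 (sub_nonneg.2 (l 7))]) (by linarith [m3 (sub_nonneg.2 u6)])
        (by linarith [l 4]) (by linarith [m5 (sub_nonneg.2 u10), n 5])
      rintro s (rfl | rfl)
      · exact this.1
      · exact this.2
    have ub0 := ub 0 (Or.inl rfl)
    have small : Val σ τ T2 1 ≤ 1 / 4 + 4 / 1000 := by
      rcases (n 1).lt_or_eq with hy | hy
      · have ub5 : Val σ τ T1 5 ≤ 3 / 4 + 1 / 1000 := by
          nlinarith [P.e5, m5 (sub_nonneg.2 u10), n 5, l 5]
        have ub3 : Val σ τ T1 3 ≤ 3 / 4 + 1 / 1000 := by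
          nlinarith [P.e3, m3 (sub_nonneg.2 u6), n 3, l 3]
        have w := wait1 hy
        have := (Q.least (7 / 4 + 2 / 1000 - 2 * Val σ τ T1 0)
          (7 / 4 + 2 / 1000 - 2 * Val σ τ T1 1) 1 (7 / 4 + 2 / 1000 - 2 * Val σ τ T1 3) 1
          (7 / 4 + 2 / 1000 - 2 * Val σ τ T1 5) (by linarith) (by linarith [ub 1 (Or.inr rfl)])
          (by norm_num) (by linarith) (by norm_num) (by linarith) (by rw [← hx]; linarith)
          (by linarith [P.e1]) (by linarith [m2 (n 7)])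
          (by linarith [P.e3, m3 (sub_nonneg.2 u6), n 3])
          (by nlinarith [m4 (n 11), l 4, w.2]) (by linarith [P.e5, m5 (sub_nonneg.2 u10)])).2
        linarith [w.2]
      · have := (Q.least 0 0 1 1 1 1 le_rfl le_rfl (by norm_num) (by norm_num) (by norm_num)
          (by norm_num) (by rw [← hx]; linarith) (by rw [← hy]; linarith)
          (by linarith [m2 (n 7)]) (by linarith [m3 (n 6)]) (by linarith [m4 (n 11), l 4])
          (by linarith [l 5])).2
        linarith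
    have e4 := (C true).e4
    rw [c4, (cl true).2.2.2.2.2] at e4
    simp only [if_true] at e4
    have hz : 0.98 ≤ pr σ τ 4 := by
      nlinarith [b 4 true, Q.e4, m4 (sub_nonneg.2 u11), l 4]
    have f0 := (D true).e0
    have f2 := (D true).e2
    have f4 := (D true).e4
    rw [d0] at f0
    rw [(dl true).1, (dl true).2.2.2.1] at f2
    rw [d4] at f4
    simp only [if_true] at f0
    have := mul_nonneg (sub_nonneg.2 (l 4)) ((D true).nn 1)
    linarith [a 0 true]

end Pool.Agent.H270Z.Game2
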