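import Mathlib
import Pool.Agent.H270Z.Lfp

set_option autoImplicit false

namespace Pool.Agent.H270Z.Game

noncomputable def dd (s : Fin 7) (p q : Bool) : Fin 7 → ℝ :=
  if s = 0 then ![0, 0, 1/2, 1/2, 0, 0, 0]
  else if s = 1 then (if p then ![0, 0, 0, 0, 0, 1/4, 3/4] else ![0, 0, 1, 0, 0, 0, 0])
  else if s = 2 then (if q then ![0, 0, 0, 1/2, 1/2, 0, 0] else ![0, 1, 0, 0, 0, 0, 0])
  else if s = 3 then (if p then ![0, 0, 0, 0, 0, 3/4, 1/4] else ![0, 1, 0, 0, 0, 0, 0])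
  else if s = 4 then ![0, 0, 0, 0, 1, 0, 0]
  else if s = 5 then ![0, 0, 0, 0, 0, 1, 0]
  else ![0, 0, 0, 0, 0, 0, 1]

theorem dd_nonneg (s : Fin 7) (p q : Bool) (t : Fin 7) : 0 ≤ dd s p q t := by
  fin_cases s <;> cases p <;> cases q <;> fin_cases t <;> simp [dd] <;> norm_num

theorem dd_sum (s : Fin 7) (p q : Bool) : ∑ t, dd s p q t = 1 := by
  fin_cases s <;> cases p <;> cases q <;> simp [dd, Fin.sum_univ_seven] <;> norm_num

noncomputable def EE (σ τ : Fin 7 → Bool → ℝ) (x : Fin 7 → ℝ) : Fin 7 → ℝ :=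
  fun s => ∑ t, (∑ a, ∑ b, σ s a * τ s b * dd s a b t) * x t

def St (σ : Fin 7 → Bool → ℝ) : Prop := (∀ s a, 0 ≤ σ s a) ∧ ∀ s, ∑ a, σ s a = 1

theorem St.f {σ : Fin 7 → Bool → ℝ} (h : St σ) (s : Fin 7) : σ s false = 1 - σ s true := by
  have := h.2 s
  rw [Fintype.sum_bool] at this
  linarith

theorem St.le {σ : Fin 7 → Bool → ℝ} (h : St σ) (s : Fin 7) : σ s true ≤ 1 := by
  have := h.1 s false
  rw [h.f] at this
  linarith

theorem EE_eq {σ τ : Fin 7 → Bool → ℝ} (hσ : St σ) (hτ : St τ) (v : Fin 7 → ℝ) :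
    EE σ τ v = ![(v 2 + v 3) / 2,
      σ 1 true * (v 5 / 4 + 3 * v 6 / 4) + (1 - σ 1 true) * v 2,
      τ 2 true * (v 4 / 2 + v 3 / 2) + (1 - τ 2 true) * v 1,
      σ 3 true * (3 * v 5 / 4 + v 6 / 4) + (1 - σ 3 true) * v 1, v 4, v 5, v 6] := by
  funext s
  fin_cases s <;> simp [EE, dd, Fin.sum_univ_seven, hσ.f, hτ.f] <;> ring

noncomputable def Val (σ τ : Fin 7 → Bool → ℝ) (T : Set (Fin 7)) : Fin 7 → ℝ :=
  fun s => ⨆ n : ℕ, ((fun v : Fin 7 → ℝ =>
      T.indicator (fun _ => (1 : ℝ)) + Tᶜ.indicator (EE σ τ v))^[n] 0) s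

theorem val_spec {σ τ : Fin 7 → Bool → ℝ} (hσ : St σ) (hτ : St τ) (T : Set (Fin 7)) :
    Spec (EE σ τ) T (Val σ τ T) := by
  refine spec_iSup _ T 0 ?_ ?_ ?_ ?_ (fun _ => le_rfl) ?_
  · intro v w h s
    refine Finset.sum_le_sum fun t _ => mul_le_mul_of_nonneg_left (h t) ?_
    exact Finset.sum_nonneg fun a _ => Finset.sum_nonneg fun b _ =>
      mul_nonneg (mul_nonneg (hσ.1 s a) (hτ.1 s b)) (dd_nonneg s a b t)
  · unfold EE; fun_prop
  · intro s; rw [EE_eq hσ hτ]; fin_cases s <;> simp <;> linarith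
  · intro s; simp [EE]
  · intro s; exact Set.indicator_nonneg (fun _ _ => zero_le_one) s

def TT : Set (Fin 7) := {4, 5}
def UU : Set (Fin 7) := {4, 6}

structure Eqs (x y z : ℝ) (g l : ℝ) (V : Fin 7 → ℝ) : Prop where
  e0 : V 0 = (V 2 + V 3) / 2
  e1 : V 1 = x * (g / 4 + 3 * l / 4) + (1 - x) * V 2
  e2 : V 2 = y * (1 / 2 + V 3 / 2) + (1 - y) * V 1
  e3 : V 3 = z * (3 * g / 4 + l / 4) + (1 - z) * V 1
  nn : ∀ s, 0 ≤ V s
  le1 : ∀ s, V s ≤ 1
  least : ∀ w0 w1 w2 w3 : ℝ, 0 ≤ w0 → 0 ≤ w1 → 0 ≤ w2 → 0 ≤ w3 → (w2 + w3) / 2 ≤ w0 →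
    x * (g / 4 + 3 * l / 4) + (1 - x) * w2 ≤ w1 → y * (1 / 2 + w3 / 2) + (1 - y) * w1 ≤ w2 →
    z * (3 * g / 4 + l / 4) + (1 - z) * w1 ≤ w3 → V 0 ≤ w0 ∧ V 1 ≤ w1 ∧ V 2 ≤ w2 ∧ V 3 ≤ w3

theorem eqsT {σ τ : Fin 7 → Bool → ℝ} (hσ : St σ) (hτ : St τ) :
    Eqs (σ 1 true) (τ 2 true) (σ 3 true) 1 0 (Val σ τ TT) := by
  have H := val_spec hσ hτ TT
  have L : ∀ w0 w1 w2 w3 : ℝ, 0 ≤ w0 → 0 ≤ w1 → 0 ≤ w2 → 0 ≤ w3 → (w2 + w3) / 2 ≤ w0 →
      σ 1 true * (1 / 4 + 3 * 0 / 4) + (1 - σ 1 true) * w2 ≤ w1 →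
      τ 2 true * (1 / 2 + w3 / 2) + (1 - τ 2 true) * w1 ≤ w2 →
      σ 3 true * (3 * 1 / 4 + 0 / 4) + (1 - σ 3 true) * w1 ≤ w3 →
      ∀ s, Val σ τ TT s ≤ ![w0, w1, w2, w3, 1, 1, 0] s := by
    intro w0 w1 w2 w3 a0 a1 a2 a3 b0 b1 b2 b3
    refine H.least _ (fun s => ?_) (fun s hs => ?_) (fun s hs => ?_)
    · fin_cases s <;> simp [*]
    · rcases hs with rfl | rfl <;> simp
    · rw [EE_eq hσ hτ]
      fin_cases s <;> simp [TT] at hs ⊢ <;> linarith
  have h4 := H.mem 4 (by simp [TT])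
  have h5 := H.mem 5 (by simp [TT])
  have h6 : Val σ τ TT 6 = 0 := by
    have := L 1 1 1 1 zero_le_one zero_le_one zero_le_one zero_le_one (by norm_num)
      (by linarith [hσ.1 1 true]) (by linarith) (by linarith [hσ.1 3 true]) 6
    exact le_antisymm (by simpa using this) (H.nonneg 6)
  have e0 := H.nmem 0 (by simp [TT])
  have e1 := H.nmem 1 (by simp [TT])
  have e2 := H.nmem 2 (by simp [TT])
  have e3 := H.nmem 3 (by simp [TT])
  rw [EE_eq hσ hτ] at e0 e1 e2 e3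
  refine ⟨by simpa using e0, by simpa [h5, h6] using e1, by simpa [h4] using e2,
    by simpa [h5, h6] using e3, H.nonneg, H.le_one, fun w0 w1 w2 w3 a0 a1 a2 a3 b0 b1 b2 b3 => ?_⟩
  have := L w0 w1 w2 w3 a0 a1 a2 a3 b0 b1 b2 b3
  exact ⟨this 0, this 1, this 2, this 3⟩

theorem eqsU {σ τ : Fin 7 → Bool → ℝ} (hσ : St σ) (hτ : St τ) :
    Eqs (σ 1 true) (τ 2 true) (σ 3 true) 0 1 (Val σ τ UU) := by
  have H := val_spec hσ hτ UU
  have L : ∀ w0 w1 w2 w3 : ℝ, 0 ≤ w0 → 0 ≤ w1 → 0 ≤ w2 → 0 ≤ w3 → (w2 + w3) / 2 ≤ w0 →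
      σ 1 true * (0 / 4 + 3 * 1 / 4) + (1 - σ 1 true) * w2 ≤ w1 →
      τ 2 true * (1 / 2 + w3 / 2) + (1 - τ 2 true) * w1 ≤ w2 →
      σ 3 true * (3 * 0 / 4 + 1 / 4) + (1 - σ 3 true) * w1 ≤ w3 →
      ∀ s, Val σ τ UU s ≤ ![w0, w1, w2, w3, 1, 0, 1] s := by
    intro w0 w1 w2 w3 a0 a1 a2 a3 b0 b1 b2 b3
    refine H.least _ (fun s => ?_) (fun s hs => ?_) (fun s hs => ?_)
    · fin_cases s <;> simp [*]
    · rcases hs with rfl | rfl <;> simp
    · rw [EE_eq hσ hτ]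
      fin_cases s <;> simp [UU] at hs ⊢ <;> linarith
  have h4 := H.mem 4 (by simp [UU])
  have h6 := H.mem 6 (by simp [UU])
  have h5 : Val σ τ UU 5 = 0 := by
    have := L 1 1 1 1 zero_le_one zero_le_one zero_le_one zero_le_one (by norm_num)
      (by linarith [hσ.1 1 true]) (by linarith) (by linarith [hσ.1 3 true]) 5
    exact le_antisymm (by simpa using this) (H.nonneg 5)
  have e0 := H.nmem 0 (by simp [UU])
  have e1 := H.nmem 1 (by simp [UU])
  have e2 := H.nmem 2 (by simp [UU])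
  have e3 := H.nmem 3 (by simp [UU])
  rw [EE_eq hσ hτ] at e0 e1 e2 e3
  refine ⟨by simpa using e0, by simpa [h5, h6] using e1, by simpa [h4] using e2,
    by simpa [h5, h6] using e3, H.nonneg, H.le_one, fun w0 w1 w2 w3 a0 a1 a2 a3 b0 b1 b2 b3 => ?_⟩
  have := L w0 w1 w2 w3 a0 a1 a2 a3 b0 b1 b2 b3
  exact ⟨this 0, this 1, this 2, this 3⟩

def pure (c : Bool) : Fin 7 → Bool → ℝ := fun _ a => if a = c then 1 else 0

theorem st_pure (c : Bool) : St (pure c) :=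
  ⟨fun s a => by unfold pure; split_ifs <;> norm_num, fun s => by cases c <;> simp [pure]⟩

theorem no_eq (σ τ : Fin 7 → Bool → ℝ) (hσ : St σ) (hτ : St τ)
    (h1 : ∀ σ', St σ' → Val σ' τ TT 0 ≤ Val σ τ TT 0 + 1 / 100)
    (h2 : ∀ τ', St τ' → Val σ τ UU 0 ≤ Val σ τ' UU 0 + 1 / 100) : False := by
  have P := eqsT hσ hτ
  have Q := eqsU hσ hτ
  have x0 := hσ.1 1 true
  have x1 := hσ.le 1
  have z0 := hσ.1 3 true
  have z1 := hσ.le 3
  have y1 := hτ.le 2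
  rcases (hτ.1 2 true).lt_or_eq with y0 | y0
  · have D := eqsT (st_pure false) hτ
    have C := eqsU hσ (st_pure false)
    have a1 := h1 _ (st_pure false)
    have a2 := h2 _ (st_pure false)
    have p1 : pure false 1 true = 0 := by simp [pure]
    have p2 : pure false 2 true = 0 := by simp [pure]
    have p3 : pure false 3 true = 0 := by simp [pure]
    rw [p1, p3] at D
    rw [p2] at C
    have d1 : Val (pure false) τ TT 1 = 1 := by
      have e1 := D.e1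
      have e2 := D.e2
      have e3 := D.e3
      have : τ 2 true * (Val (pure false) τ TT 1 - 1) = 0 := by
        rw [e3] at e2; linarith
      rcases mul_eq_zero.1 this with h | h <;> linarith
    have d0 : Val (pure false) τ TT 0 = 1 := by linarith [D.e0, D.e1, D.e3]
    have c0 := (C.least (3 / 4) (3 / 4) (3 / 4) (3 / 4) (by norm_num) (by norm_num) (by norm_num)
      (by norm_num) (by norm_num) (by linarith) (by linarith) (by linarith)).1
    have v0 := (P.least (2 / 3 + Val σ τ UU 0 / 3) (2 / 3 + Val σ τ UU 1 / 3)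
      (2 / 3 + Val σ τ UU 2 / 3) (2 / 3 + Val σ τ UU 3 / 3) (by linarith [Q.nn 0])
      (by linarith [Q.nn 1]) (by linarith [Q.nn 2]) (by linarith [Q.nn 3]) (by linarith [Q.e0])
      (by linarith [Q.e1]) (by linarith [Q.e2]) (by linarith [Q.e3])).1
    linarith
  · have D := eqsT (st_pure true) hτ
    have C := eqsU hσ (st_pure true)
    have a1 := h1 _ (st_pure true)
    have a2 := h2 _ (st_pure true)
    have p1 : pure true 1 true = 1 := by simp [pure]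
    have p2 : pure true 2 true = 1 := by simp [pure]
    have p3 : pure true 3 true = 1 := by simp [pure]
    rw [p1, p3, ← y0] at D
    rw [p2] at C
    rw [← y0] at P Q
    have d0 : Val (pure true) τ TT 0 = 1 / 2 := by linarith [D.e0, D.e1, D.e2, D.e3]
    have v0 := (P.least (1 / 4 + σ 3 true / 4) (1 / 4) (1 / 4) (1 / 4 + σ 3 true / 2)
      (by linarith) (by norm_num) (by norm_num) (by linarith) (by linarith) (by linarith)
      (by linarith) (by linarith)).1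
    rcases x0.lt_or_eq with x0 | x0
    · have q1 : Val σ τ UU 1 = 3 / 4 := by
        have e1 := Q.e1
        have e2 := Q.e2
        have : σ 1 true * (Val σ τ UU 1 - 3 / 4) = 0 := by
          rw [e2] at e1; linarith
        rcases mul_eq_zero.1 this with h | h <;> linarith
      have q3 := Q.e3
      rw [q1] at q3
      have c3 : (1 - σ 3 true) * Val σ (pure true) UU 1 ≤ 1 - σ 3 true :=
        mul_le_of_le_one_right (by linarith) (C.le1 1)
      linarith [Q.e0, Q.e2, C.e0, C.e2, C.e3]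
    · rw [← x0] at P
      have v1 := (P.least (3 / 8) 0 0 (3 / 4) (by norm_num) le_rfl le_rfl (by norm_num)
        (by norm_num) (by norm_num) (by norm_num) (by linarith)).1
      linarith

end Pool.Agent.H270Z.Game
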